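import Pool.Agent.Work.MP_a6f1bd_gt.Model2

/-!
Comparison cosines and their monotonicity.
-/

namespace Pool.Agent.Work.MP_a6f1bd_gt

open Real Filter Topology

theorem sinh_le_mul_cosh {x : ℝ} (hx : 0 ≤ x) : sinh x ≤ x * cosh x := by
  have hmono : MonotoneOn (fun x : ℝ => x * cosh x - sinh x) (Set.Ici 0) := by
    apply monotoneOn_of_deriv_nonneg (convex_Ici 0)
    · exact (Continuous.sub (continuous_id.mul Real.continuous_cosh)
        Real.continuous_sinh).continuousOn
    · exact ((differentiable_id.mul Real.differentiable_cosh).sub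
        Real.differentiable_sinh).differentiableOn
    · intro y hy
      rw [interior_Ici] at hy
      have h1 : HasDerivAt (fun x : ℝ => x * cosh x - sinh x)
          (1 * cosh y + y * sinh y - cosh y) y :=
        ((hasDerivAt_id y).mul (Real.hasDerivAt_cosh y)).sub (Real.hasDerivAt_sinh y)
      rw [h1.deriv]
      have h2 : 0 < sinh y := sinh_pos_iff.mpr hy
      have h3 : (0:ℝ) < y := hy
      nlinarith [mul_pos h3 h2]
  have h := hmono (Set.mem_Ici.mpr le_rfl) (Set.mem_Ici.mpr hx) hx
  simp only [zero_mul, sinh_zero, sub_zero] at h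
  linarith

/-- `sinh x / x` is monotone. -/
theorem sinh_ratio {x s : ℝ} (hx : 0 ≤ x) (hxs : x ≤ s) : s * sinh x ≤ x * sinh s := by
  have hmono : MonotoneOn (fun s : ℝ => x * sinh s - s * sinh x) (Set.Ici x) := by
    apply monotoneOn_of_deriv_nonneg (convex_Ici x)
    · exact (Continuous.sub (continuous_const.mul Real.continuous_sinh)
        (continuous_id.mul continuous_const)).continuousOn
    · exact (((Real.differentiable_sinh).const_mul x).sub
        (differentiable_id.mul_const _)).differentiableOn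
    · intro y hy
      rw [interior_Ici] at hy
      have h1 : HasDerivAt (fun s : ℝ => x * sinh s - s * sinh x)
          (x * cosh y - 1 * sinh x) y :=
        ((Real.hasDerivAt_sinh y).const_mul x).sub ((hasDerivAt_id y).mul_const _)
      rw [h1.deriv]
      have h3 : x < y := hy
      have h4 := sinh_le_mul_cosh hx
      have h5 : cosh x ≤ cosh y := by
        rw [cosh_le_cosh, abs_of_nonneg hx, abs_of_nonneg (by linarith)]
        exact h3.le
      nlinarith [mul_le_mul_of_nonneg_left h5 hx]
  have h := hmono (Set.mem_Ici.mpr le_rfl) (Set.mem_Ici.mpr hxs) hxs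
  simp only at h
  nlinarith

/-- The hyperbolic comparison cosine. -/
noncomputable def CC (a r d : ℝ) : ℝ := (cosh a * cosh r - cosh d) / (sinh a * sinh r)

/-- The Euclidean comparison cosine. -/
noncomputable def EE (a r d : ℝ) : ℝ := (a ^ 2 + r ^ 2 - d ^ 2) / (2 * a * r)

theorem CC_comm (a r d : ℝ) : CC a r d = CC r a d := by
  unfold CC; rw [mul_comm (cosh a), mul_comm (sinh a)]

theorem EE_comm (a r d : ℝ) : EE a r d = EE r a d := by
  unfold EE; congr 1 <;> ring

theorem one_sub_CC {a r d : ℝ} (ha : 0 < a) (hr : 0 < r) :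
    1 - CC a r d = 2 * sinh ((d + a - r) / 2) * sinh ((d - a + r) / 2) / (sinh a * sinh r) := by
  have h1 : 0 < sinh a := sinh_pos_iff.mpr ha
  have h2 : 0 < sinh r := sinh_pos_iff.mpr hr
  have h3 : cosh d - cosh (a - r) = 2 * sinh ((d + a - r) / 2) * sinh ((d - a + r) / 2) := by
    have e1 := cosh_add ((d + a - r) / 2) ((d - a + r) / 2)
    have e2 := cosh_sub ((d + a - r) / 2) ((d - a + r) / 2)
    rw [show (d + a - r) / 2 + (d - a + r) / 2 = d by ring] at e1
    rw [show (d + a - r) / 2 - (d - a + r) / 2 = a - r by ring] at e2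
    linarith
  rw [← h3, cosh_sub]
  unfold CC
  field_simp
  ring

theorem one_sub_EE {a r d : ℝ} (ha : 0 < a) (hr : 0 < r) :
    1 - EE a r d = 2 * ((d + a - r) / 2) * ((d - a + r) / 2) / (a * r) := by
  unfold EE
  field_simp
  ring

theorem EE_le_CC {a r d : ℝ} (ha : 0 < a) (hr : 0 < r) (h1 : a ≤ d + r) (h2 : r ≤ d + a)
    (h3 : d ≤ a + r) : EE a r d ≤ CC a r d := by
  have h : 1 - CC a r d ≤ 1 - EE a r d := by
    rw [one_sub_CC ha hr, one_sub_EE ha hr]
    have hs1 : 0 < sinh a := sinh_pos_iff.mpr ha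
    have hs2 : 0 < sinh r := sinh_pos_iff.mpr hr
    set x := (d + a - r) / 2 with hx
    set y := (d - a + r) / 2 with hy
    have hx0 : 0 ≤ x := by rw [hx]; linarith
    have hy0 : 0 ≤ y := by rw [hy]; linarith
    have hxa : x ≤ a := by rw [hx]; linarith
    have hyr : y ≤ r := by rw [hy]; linarith
    have k1 := sinh_ratio hx0 hxa
    have k2 := sinh_ratio hy0 hyr
    have k3 : 0 ≤ sinh x := sinh_nonneg_iff.mpr hx0
    have k4 : 0 ≤ sinh y := sinh_nonneg_iff.mpr hy0
    rw [div_le_div_iff₀ (by positivity) (by positivity)]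
    have k5 : (a * sinh x) * (r * sinh y) ≤ (x * sinh a) * (y * sinh r) :=
      mul_le_mul k1 k2 (by positivity) (by positivity)
    nlinarith
  linarith

theorem one_sub_EE_le {a r d : ℝ} (ha : 0 < a) (hr : 0 < r) (h1 : a ≤ d + r) (h2 : r ≤ d + a) :
    1 - EE a r d ≤ (1 - CC a r d) * ((sinh a / a) * (sinh r / r)) := by
  rw [one_sub_CC ha hr, one_sub_EE ha hr]
  have hs1 : 0 < sinh a := sinh_pos_iff.mpr ha
  have hs2 : 0 < sinh r := sinh_pos_iff.mpr hr
  set x := (d + a - r) / 2 with hx
  set y := (d - a + r) / 2 with hy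
  have hx0 : 0 ≤ x := by rw [hx]; linarith
  have hy0 : 0 ≤ y := by rw [hy]; linarith
  have k1 : x ≤ sinh x := self_le_sinh_iff.mpr hx0
  have k2 : y ≤ sinh y := self_le_sinh_iff.mpr hy0
  have k5 : x * y ≤ sinh x * sinh y := mul_le_mul k1 k2 hy0 (le_trans hx0 k1)
  have e : 2 * sinh x * sinh y / (sinh a * sinh r) * ((sinh a / a) * (sinh r / r)) =
      2 * (sinh x * sinh y) / (a * r) := by
    field_simp
  rw [e, div_le_div_iff_of_pos_right (by positivity)]
  linarith

section space

variable {X : Type} [MetricSpace X]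

theorem Btw.le {v p' p : X} (h : Btw v p' p) : dist v p' ≤ dist v p := by
  unfold Btw at h
  have := dist_nonneg (x := p') (y := p)
  linarith

/-- In curvature `≥ -1` the hyperbolic comparison cosine is nondecreasing. -/
theorem CC_mono (hX : IsCurvGeNegOne X) {v p' p q : X} (h : Btw v p' p) (hp : 0 < dist v p')
    (hq : 0 < dist v q) :
    CC (dist v p') (dist v q) (dist p' q) ≤ CC (dist v p) (dist v q) (dist p q) := by
  have h1 := hX v p' p q h
  have hle := h.le
  have hpp : 0 < dist v p := lt_of_lt_of_le hp hle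
  have s1 : 0 < sinh (dist v p') := sinh_pos_iff.mpr hp
  have s2 : 0 < sinh (dist v q) := sinh_pos_iff.mpr hq
  have s3 : 0 < sinh (dist v p) := sinh_pos_iff.mpr hpp
  unfold CC
  rw [div_le_div_iff₀ (by positivity) (by positivity)]
  have h2 : dist p' p = dist v p - dist v p' := by unfold Btw at h; linarith
  rw [h2, sinh_sub, dist_comm q v, dist_comm q p, dist_comm q p'] at h1
  nlinarith [mul_le_mul_of_nonneg_left h1 s2.le]

/-- In nonpositive curvature the Euclidean comparison cosine is nonincreasing. -/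
theorem EE_anti (hX : IsNonposCurved X) {v p' p q : X} (h : Btw v p' p) (hp : 0 < dist v p')
    (hq : 0 < dist v q) :
    EE (dist v p) (dist v q) (dist p q) ≤ EE (dist v p') (dist v q) (dist p' q) := by
  have h1 := hX v p' p q h
  have hle := h.le
  have hpp : 0 < dist v p := lt_of_lt_of_le hp hle
  unfold EE
  rw [div_le_div_iff₀ (by positivity) (by positivity)]
  have h2 : dist p' p = dist v p - dist v p' := by unfold Btw at h; linarith
  rw [h2, dist_comm q v, dist_comm q p, dist_comm q p'] at h1
  nlinarith [mul_le_mul_of_nonneg_left h1 hq.le]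

/-- Uniqueness of intermediate points in nonpositive curvature. -/
theorem btw_unique' (hX : IsNonposCurved X) {y p q z : X} (hp : Btw y p z) (hq : Btw y q z)
    (h : dist y p = dist y q) : p = q := by
  have h1 := hX y p z q hp
  have h2 : dist q z = dist p z := by unfold Btw at hp hq; linarith
  rw [h2, dist_comm q y, ← h] at h1
  unfold Btw at hp
  rcases (dist_nonneg (x := y) (y := z)).eq_or_lt with h0 | h0
  · have h3 : dist y p = 0 := by
      have := dist_nonneg (x := y) (y := p)
      have := dist_nonneg (x := p) (y := z)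
      linarith
    have h4 : dist y q = 0 := by rw [← h, h3]
    rw [← eq_of_dist_eq_zero h3, ← eq_of_dist_eq_zero h4]
  · have h5 : dist y z * dist q p ^ 2 ≤ 0 := by
      rw [← hp] at h1 ⊢
      nlinarith
    have h6 : dist q p ^ 2 ≤ 0 := by
      by_contra h7
      have h7 : 0 < dist q p ^ 2 := not_le.mp h7
      have := mul_pos h0 h7
      linarith
    have h7 : dist q p = 0 := by
      have := sq_nonneg (dist q p)
      exact pow_eq_zero_iff (two_ne_zero) |>.mp (le_antisymm h6 this)
    exact (eq_of_dist_eq_zero h7).symm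

theorem exists_btw' (hX : IsGeodesicSpace X) (y z : X) {u : ℝ} (h0 : 0 ≤ u)
    (h1 : u ≤ dist y z) : ∃ p : X, Btw y p z ∧ dist y p = u := by
  obtain ⟨c, hc0, hc1, hc⟩ := hX y z
  have e1 := hc 0 ⟨le_rfl, dist_nonneg⟩ u ⟨h0, h1⟩
  have e2 := hc u ⟨h0, h1⟩ (dist y z) ⟨dist_nonneg, le_rfl⟩
  rw [hc0] at e1
  rw [hc1] at e2
  rw [zero_sub, abs_neg, abs_of_nonneg h0] at e1
  rw [abs_of_nonpos (by linarith)] at e2
  refine ⟨c u, ?_, e1⟩
  unfold Btw
  rw [e1, e2]
  ring

theorem Btw.symm {p q r : X} (h : Btw p q r) : Btw r q p := by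
  unfold Btw at *
  rw [dist_comm r q, dist_comm q p, dist_comm r p]
  linarith

theorem btw_self_left (y z : X) : Btw y y z := by simp [Btw]

theorem EE_le_CC' {v p q : X} (hp : 0 < dist v p) (hq : 0 < dist v q) :
    EE (dist v p) (dist v q) (dist p q) ≤ CC (dist v p) (dist v q) (dist p q) := by
  apply EE_le_CC hp hq
  · have := dist_triangle v q p
    rw [dist_comm q p] at this
    linarith
  · have := dist_triangle v p q
    linarith
  · have := dist_triangle p v q
    rw [dist_comm p v] at this
    linarith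

theorem one_sub_EE_le' {v p q : X} (hp : 0 < dist v p) (hq : 0 < dist v q) :
    1 - EE (dist v p) (dist v q) (dist p q) ≤ (1 - CC (dist v p) (dist v q) (dist p q)) *
      ((sinh (dist v p) / dist v p) * (sinh (dist v q) / dist v q)) := by
  apply one_sub_EE_le hp hq
  · have := dist_triangle v q p
    rw [dist_comm q p] at this
    linarith
  · have := dist_triangle v p q
    linarith

end space

/-- In hyperbolic space the hyperbolic comparison cosine is constant. -/
theorem Hyp.CC_eq {m : ℕ} {v p' p q : Hyp m} (h : Btw v p' p) (hp : 0 < dist v p')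
    (hq : 0 < dist v q) :
    CC (dist v p') (dist v q) (dist p' q) = CC (dist v p) (dist v q) (dist p q) := by
  have h1 := Hyp.eq_btw h q
  have hle := h.le
  have hpp : 0 < dist v p := lt_of_lt_of_le hp hle
  have s1 : 0 < sinh (dist v p') := sinh_pos_iff.mpr hp
  have s2 : 0 < sinh (dist v q) := sinh_pos_iff.mpr hq
  have s3 : 0 < sinh (dist v p) := sinh_pos_iff.mpr hpp
  unfold CC
  rw [div_eq_div_iff (by positivity) (by positivity)]
  have h2 : dist p' p = dist v p - dist v p' := by unfold Btw at h; linarith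
  rw [h2, sinh_sub, dist_comm q v, dist_comm q p, dist_comm q p'] at h1
  linear_combination (sinh (dist v q)) * h1

theorem tendsto_sinh_div : Tendsto (fun u : ℝ => sinh u / u) (𝓝[>] 0) (𝓝 1) := by
  have h1 : HasDerivAt sinh (cosh 0) 0 := Real.hasDerivAt_sinh 0
  rw [cosh_zero, hasDerivAt_iff_tendsto_slope] at h1
  have h2 : Tendsto (slope sinh 0) (𝓝[>] 0) (𝓝 1) :=
    h1.mono_left (nhdsWithin_mono 0 (fun x hx => (Set.mem_Ioi.mp hx).ne'))
  refine h2.congr (fun u => ?_)
  rw [slope_def_field, sinh_zero, sub_zero, sub_zero]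

/-- Behaviour of the comparison cosine at infinity. -/
theorem tendsto_CC_atTop {f : ℝ → ℝ} {b a : ℝ} (hf : Tendsto (fun t => f t - t) atTop (𝓝 b)) :
    Tendsto (fun t => CC a t (f t)) atTop (𝓝 ((cosh a - exp b) / sinh a)) := by
  have hexp : Tendsto (fun t : ℝ => exp (-(2 * t))) atTop (𝓝 0) := by
    apply Real.tendsto_exp_neg_atTop_nhds_zero.comp
    exact tendsto_id.const_mul_atTop two_pos
  have h1 : Tendsto (fun t => exp (f t - t)) atTop (𝓝 (exp b)) :=
    (Real.continuous_exp.tendsto b).comp hf
  have h2 : Tendsto (fun t => exp (-(f t) - t)) atTop (𝓝 0) := by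
    have h3 : Tendsto (fun t => exp (-(f t - t)) * exp (-(2 * t))) atTop (𝓝 (exp (-b) * 0)) :=
      ((Real.continuous_exp.tendsto (-b)).comp hf.neg).mul hexp
    rw [mul_zero] at h3
    refine h3.congr (fun t => ?_)
    rw [← exp_add]
    congr 1
    ring
  have h4 : Tendsto (fun t => (cosh a * (1 + exp (-(2 * t))) - (exp (f t - t) + exp (-(f t) - t))) /
      (sinh a * (1 - exp (-(2 * t))))) atTop
      (𝓝 ((cosh a * (1 + 0) - (exp b + 0)) / (sinh a * (1 - 0)))) := by
    by_cases ha : sinh a = 0
    · simp [ha]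
    · apply Tendsto.div
      · exact ((hexp.const_add 1).const_mul (cosh a)).sub (h1.add h2)
      · exact (hexp.const_sub 1).const_mul (sinh a)
      · simpa using ha
  simp only [add_zero, sub_zero, mul_one] at h4
  refine h4.congr (fun t => ?_)
  unfold CC
  rw [Real.cosh_eq t, Real.cosh_eq (f t), Real.sinh_eq t]
  have e1 : exp (f t - t) = exp (f t) * exp (-t) := by rw [← exp_add]; congr 1
  have e2 : exp (-(f t) - t) = exp (-(f t)) * exp (-t) := by rw [← exp_add]; congr 1
  have e3 : exp (-(2 * t)) = exp (-t) * exp (-t) := by rw [← exp_add]; congr 1; ring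
  have e4 : exp t * exp (-t) = 1 := by rw [← exp_add]; simp
  have e5 : (0:ℝ) < exp (-t) := exp_pos _
  have n1 : cosh a * (1 + exp (-(2 * t))) - (exp (f t - t) + exp (-(f t) - t)) =
      (cosh a * ((exp t + exp (-t)) / 2) - (exp (f t) + exp (-(f t))) / 2) * (2 * exp (-t)) := by
    rw [e1, e2, e3]
    linear_combination (-cosh a) * e4
  have n2 : sinh a * (1 - exp (-(2 * t))) =
      (sinh a * ((exp t - exp (-t)) / 2)) * (2 * exp (-t)) := by
    rw [e3]
    linear_combination (-sinh a) * e4
  rw [n1, n2, mul_div_mul_right _ _ (by positivity)]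

end Pool.Agent.Work.MP_a6f1bd_gt
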