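import Pool.Agent.Work.MP_a6f1bd_gt.Hyp

/-!
Metric definitions for problem MP_a6f1bd_gt.
-/

namespace Pool.Agent.Work.MP_a6f1bd_gt

open Real Filter Topology

/-- `q` lies on a geodesic segment from `p` to `r`. -/
def Btw {X : Type} [MetricSpace X] (p q r : X) : Prop := dist p q + dist q r = dist p r

/-- `c` is a unit-speed (minimising) geodesic on `[0, l]`. -/
def IsGeod {X : Type} [MetricSpace X] (c : ℝ → X) (l : ℝ) : Prop :=
  ∀ s ∈ Set.Icc 0 l, ∀ t ∈ Set.Icc 0 l, dist (c s) (c t) = |s - t|

/-- `c` is the unit-speed geodesic segment from `p` to `q`. -/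
def IsSeg {X : Type} [MetricSpace X] (c : ℝ → X) (p q : X) : Prop :=
  c 0 = p ∧ c (dist p q) = q ∧ IsGeod c (dist p q)

/-- `c` is a unit-speed geodesic ray. -/
def IsRay {X : Type} [MetricSpace X] (c : ℝ → X) : Prop :=
  ∀ s, 0 ≤ s → ∀ t, 0 ≤ t → dist (c s) (c t) = |s - t|

/-- Any two points are joined by a geodesic segment. -/
def IsGeodesicSpace (X : Type) [MetricSpace X] : Prop := ∀ p q : X, ∃ c : ℝ → X, IsSeg c p q

/-- Nonpositive curvature in the sense of Alexandrov (the CAT(0) comparison): for a point `p` on a
side `[y, z]` of a geodesic triangle with third vertex `q`, the distance `|qp|` is at most the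
corresponding distance in the Euclidean comparison triangle (computed by Stewart's theorem). -/
def IsNonposCurved (X : Type) [MetricSpace X] : Prop :=
  ∀ y p z q : X, Btw y p z →
    dist y z * dist q p ^ 2 ≤ dist p z * dist q y ^ 2 + dist y p * dist q z ^ 2
      - dist y p * dist p z * dist y z

/-- Curvature at least `-1` in the sense of Alexandrov (Toponogov's comparison): for a point `p` on
a side `[y, z]` of a geodesic triangle with third vertex `q`, the distance `|qp|` is at least the
corresponding distance in the comparison triangle in the hyperbolic plane of curvature `-1`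
(computed by the hyperbolic Stewart theorem). -/
def IsCurvGeNegOne (X : Type) [MetricSpace X] : Prop :=
  ∀ y p z q : X, Btw y p z →
    sinh (dist p z) * cosh (dist q y) + sinh (dist y p) * cosh (dist q z)
      ≤ sinh (dist y z) * cosh (dist q p)

/-- `θ` is the angle between the unit-speed geodesics `c` and `c'` issuing from a common point: the
limit of the Euclidean comparison angles at that point. -/
def IsAngle {X : Type} [MetricSpace X] (c c' : ℝ → X) (θ : ℝ) : Prop :=
  Tendsto (fun s : ℝ × ℝ =>
    arccos ((s.1 ^ 2 + s.2 ^ 2 - dist (c s.1) (c' s.2) ^ 2) / (2 * s.1 * s.2)))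
    (𝓝[>] 0 ×ˢ 𝓝[>] 0) (𝓝 θ)

/-- `b` is the value at `p` of the Busemann function of the ray `c`. -/
def IsBusemann {X : Type} [MetricSpace X] (c : ℝ → X) (p : X) (b : ℝ) : Prop :=
  Tendsto (fun t : ℝ => dist p (c t) - t) atTop (𝓝 b)

/-- The closed ideal triangle spanned by the point `y` and the ray `c`: the closure of the union of
all geodesic segments from `y` to points of `c`. Its sides are the segment from `y` to `c 0`, the
ray `c`, and the ray from `y` asymptotic to `c`. -/
def idealTriangle {X : Type} [MetricSpace X] (c : ℝ → X) (y : X) : Set X :=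
  closure {p | ∃ t, 0 ≤ t ∧ Btw y p (c t)}

/-- `A` contains all geodesic segments between its points (it is totally geodesic). -/
def IsGeodConvex {X : Type} [MetricSpace X] (A : Set X) : Prop :=
  ∀ p ∈ A, ∀ q ∈ A, ∀ r, Btw p r q → r ∈ A

end Pool.Agent.Work.MP_a6f1bd_gt
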