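import Mathlib

/-!
The hyperboloid model of real hyperbolic space of curvature `-1`.
-/

namespace Pool.Agent.Work.MP_a6f1bd_gt

open Real

/-- Real hyperbolic `m`-space, hyperboloid model: the upper sheet `t² = 1 + |v|²`, `t > 0`, in
`ℝ × ℝ^m`. -/
@[ext]
structure Hyp (m : ℕ) where
  t : ℝ
  v : EuclideanSpace ℝ (Fin m)
  pos : 0 < t
  eq : t ^ 2 = 1 + ‖v‖ ^ 2

/-- Minus the Lorentz product of two vectors of `ℝ × ℝ^m`. -/
noncomputable def lor {m : ℕ} (a b : ℝ × EuclideanSpace ℝ (Fin m)) : ℝ :=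
  a.1 * b.1 - inner ℝ a.2 b.2

namespace Hyp

variable {m : ℕ}

/-- The underlying vector of `ℝ × ℝ^m`. -/
def vec (p : Hyp m) : ℝ × EuclideanSpace ℝ (Fin m) := (p.t, p.v)

end Hyp

section lor

variable {m : ℕ}

theorem lor_comm (a b : ℝ × EuclideanSpace ℝ (Fin m)) : lor a b = lor b a := by
  unfold lor; rw [real_inner_comm]; ring

theorem lor_add_left (a b c : ℝ × EuclideanSpace ℝ (Fin m)) :
    lor (a + b) c = lor a c + lor b c := by
  unfold lor; rw [Prod.fst_add, Prod.snd_add, inner_add_left]; ring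

theorem lor_add_right (a b c : ℝ × EuclideanSpace ℝ (Fin m)) :
    lor a (b + c) = lor a b + lor a c := by
  unfold lor; rw [Prod.fst_add, Prod.snd_add, inner_add_right]; ring

theorem lor_smul_left (r : ℝ) (a b : ℝ × EuclideanSpace ℝ (Fin m)) :
    lor (r • a) b = r * lor a b := by
  unfold lor; rw [Prod.smul_fst, Prod.smul_snd, real_inner_smul_left, smul_eq_mul]; ring

theorem lor_smul_right (r : ℝ) (a b : ℝ × EuclideanSpace ℝ (Fin m)) :
    lor a (r • b) = r * lor a b := by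
  unfold lor; rw [Prod.smul_fst, Prod.smul_snd, real_inner_smul_right, smul_eq_mul]; ring

theorem lor_sub_left (a b c : ℝ × EuclideanSpace ℝ (Fin m)) :
    lor (a - b) c = lor a c - lor b c := by
  unfold lor; rw [Prod.fst_sub, Prod.snd_sub, inner_sub_left]; ring

theorem lor_sub_right (a b c : ℝ × EuclideanSpace ℝ (Fin m)) :
    lor a (b - c) = lor a b - lor a c := by
  unfold lor; rw [Prod.fst_sub, Prod.snd_sub, inner_sub_right]; ring

theorem lor_self (p : Hyp m) : lor p.vec p.vec = 1 := by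
  unfold lor Hyp.vec
  simp only [real_inner_self_eq_norm_sq]
  nlinarith [p.eq]

/-- The form is negative semidefinite on the orthogonal complement of a point. -/
theorem lor_nonpos_of_orth (q : Hyp m) (a : ℝ × EuclideanSpace ℝ (Fin m))
    (h : lor a q.vec = 0) : lor a a ≤ 0 := by
  unfold lor Hyp.vec at *
  simp only [real_inner_self_eq_norm_sq] at *
  have h1 : a.1 * q.t = inner ℝ a.2 q.v := by linarith
  have h2 : |inner ℝ a.2 q.v| ≤ ‖a.2‖ * ‖q.v‖ := abs_real_inner_le_norm _ _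
  have h3 : (a.1 * q.t) ^ 2 ≤ (‖a.2‖ * ‖q.v‖) ^ 2 := by
    rw [h1]
    exact sq_le_sq' (by linarith [neg_abs_le (inner ℝ a.2 q.v)]) (le_trans (le_abs_self _) h2)
  have h4 := q.eq
  have h5 : (a.1) ^ 2 * q.t ^ 2 ≤ ‖a.2‖ ^ 2 * q.t ^ 2 := by
    have : ‖a.2‖ ^ 2 * ‖q.v‖ ^ 2 ≤ ‖a.2‖ ^ 2 * q.t ^ 2 := by
      rw [h4]; nlinarith [sq_nonneg ‖a.2‖]
    nlinarith
  have h6 : 0 < q.t ^ 2 := by have := q.pos; positivity
  have h7 : a.1 ^ 2 ≤ ‖a.2‖ ^ 2 := le_of_mul_le_mul_right h5 h6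
  nlinarith

theorem eq_zero_of_orth (q : Hyp m) (a : ℝ × EuclideanSpace ℝ (Fin m))
    (h : lor a q.vec = 0) (h0 : lor a a = 0) : a = 0 := by
  unfold lor Hyp.vec at *
  simp only [real_inner_self_eq_norm_sq] at *
  have h1 : a.1 * q.t = inner ℝ a.2 q.v := by linarith
  have h2 : |inner ℝ a.2 q.v| ≤ ‖a.2‖ * ‖q.v‖ := abs_real_inner_le_norm _ _
  have h3 : (a.1 * q.t) ^ 2 ≤ (‖a.2‖ * ‖q.v‖) ^ 2 := by
    rw [h1]
    exact sq_le_sq' (by linarith [neg_abs_le (inner ℝ a.2 q.v)]) (le_trans (le_abs_self _) h2)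
  have h4 := q.eq
  have h5 : ‖a.2‖ ^ 2 = a.1 ^ 2 := by linarith
  have h6 : a.1 ^ 2 ≤ 0 := by
    have : (a.1 * q.t) ^ 2 ≤ a.1 ^ 2 * ‖q.v‖ ^ 2 := by rw [← h5]; nlinarith
    rw [mul_pow, h4] at this
    nlinarith
  have h7 : a.1 = 0 := by
    have := sq_nonneg a.1
    exact pow_eq_zero_iff (two_ne_zero) |>.mp (le_antisymm h6 this)
  have h8 : ‖a.2‖ = 0 := by
    rw [h7] at h5
    exact pow_eq_zero_iff (two_ne_zero) |>.mp (by rw [h5]; ring)
  exact Prod.ext h7 (norm_eq_zero.mp h8)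

theorem one_le_lor (p q : Hyp m) : 1 ≤ lor p.vec q.vec := by
  unfold lor Hyp.vec
  have h1 := p.eq
  have h2 := q.eq
  have h3 : inner ℝ p.v q.v ≤ ‖p.v‖ * ‖q.v‖ := real_inner_le_norm _ _
  have h4 : 0 ≤ ‖p.v‖ * ‖q.v‖ := by positivity
  have h5 : 1 + ‖p.v‖ * ‖q.v‖ ≤ p.t * q.t := by
    apply le_of_sq_le_sq _ (mul_pos p.pos q.pos).le
    rw [mul_pow, h1, h2]
    nlinarith [sq_nonneg (‖p.v‖ - ‖q.v‖)]
  simp only
  linarith

/-- Reversed Cauchy–Schwarz, relative to a third point. -/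
theorem lor_cs (p q r : Hyp m) :
    (lor p.vec r.vec - lor p.vec q.vec * lor q.vec r.vec) ^ 2 ≤
      (lor p.vec q.vec ^ 2 - 1) * (lor q.vec r.vec ^ 2 - 1) := by
  set c1 := lor p.vec q.vec with hc1
  set c2 := lor q.vec r.vec with hc2
  set c := lor p.vec r.vec with hc
  have hq := lor_self q
  have hp := lor_self p
  have hr := lor_self r
  have hrq : lor r.vec q.vec = c2 := by rw [lor_comm]
  have hqp : lor q.vec p.vec = c1 := by rw [lor_comm]
  have key : ∀ s : ℝ, 0 ≤ (c2 ^ 2 - 1) * (s * s) + 2 * (c1 * c2 - c) * s + (c1 ^ 2 - 1) := by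
    intro s
    have := lor_nonpos_of_orth q ((p.vec - c1 • q.vec) + s • (r.vec - c2 • q.vec)) (by
      simp only [lor_add_left, lor_sub_left, lor_smul_left, hq, hrq, ← hc1]
      ring)
    simp only [lor_add_left, lor_sub_left, lor_smul_left, lor_add_right, lor_sub_right,
      lor_smul_right, hq, hp, hr, hrq, hqp, ← hc1, ← hc2, ← hc] at this
    have hrp : lor r.vec p.vec = c := by rw [lor_comm]
    rw [hrp] at this
    nlinarith
  have hd := discrim_le_zero key
  unfold discrim at hd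
  nlinarith

end lor

namespace Hyp

variable {m : ℕ}

/-- The hyperbolic distance: `cosh d(p, q) = t_p t_q - ⟪v_p, v_q⟫`. -/
noncomputable instance : Dist (Hyp m) := ⟨fun p q => arcosh (lor p.vec q.vec)⟩

theorem dist_def (p q : Hyp m) : dist p q = arcosh (lor p.vec q.vec) := rfl

theorem dist_nonneg' (p q : Hyp m) : 0 ≤ dist p q := by
  rw [dist_def]
  exact arcosh_nonneg (one_le_lor p q)

theorem cosh_dist (p q : Hyp m) : cosh (dist p q) = lor p.vec q.vec := by
  rw [dist_def, cosh_arcosh (one_le_lor p q)]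

theorem vec_injective : Function.Injective (vec : Hyp m → _) := by
  intro p q h
  have h1 : p.t = q.t := congrArg Prod.fst h
  have h2 : p.v = q.v := congrArg Prod.snd h
  exact Hyp.ext h1 h2

theorem sinh_sq (p q : Hyp m) : sinh (dist p q) ^ 2 = lor p.vec q.vec ^ 2 - 1 := by
  have := Real.cosh_sq (dist p q)
  rw [cosh_dist] at this
  linarith

theorem dist_triangle' (p q r : Hyp m) : dist p r ≤ dist p q + dist q r := by
  have h1 := lor_cs p q r
  rw [← sinh_sq, ← sinh_sq] at h1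
  have h2 : 0 ≤ sinh (dist p q) := sinh_nonneg_iff.mpr (dist_nonneg' p q)
  have h3 : 0 ≤ sinh (dist q r) := sinh_nonneg_iff.mpr (dist_nonneg' q r)
  have h4 : lor p.vec r.vec - lor p.vec q.vec * lor q.vec r.vec ≤
      sinh (dist p q) * sinh (dist q r) := by
    apply le_of_sq_le_sq _ (by positivity)
    rw [mul_pow]
    exact h1
  have h5 : cosh (dist p r) ≤ cosh (dist p q + dist q r) := by
    rw [cosh_add, cosh_dist, cosh_dist, cosh_dist]
    linarith
  rw [cosh_le_cosh] at h5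
  rwa [abs_of_nonneg (dist_nonneg' p r),
    abs_of_nonneg (add_nonneg (dist_nonneg' p q) (dist_nonneg' q r))] at h5

noncomputable instance : MetricSpace (Hyp m) where
  dist_self p := by rw [dist_def, lor_self, arcosh_zero]
  dist_comm p q := by rw [dist_def, dist_def, lor_comm]
  dist_triangle p q r := dist_triangle' p q r
  eq_of_dist_eq_zero := by
    intro p q h
    have h1 : lor p.vec q.vec = 1 := by rw [← cosh_dist, h, cosh_zero]
    apply vec_injective
    have h2 := eq_zero_of_orth q (p.vec - q.vec) (by rw [lor_sub_left, h1, lor_self, sub_self])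
      (by
        rw [lor_sub_left, lor_sub_right, lor_sub_right, lor_self, lor_self,
          lor_comm q.vec p.vec, h1]
        ring)
    exact sub_eq_zero.mp h2

end Hyp

end Pool.Agent.Work.MP_a6f1bd_gt
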