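import Pool.Agent.Work.MP_a6f1bd_gt.Steps

/-!
Assembling the isometry.
-/

namespace Pool.Agent.Work.MP_a6f1bd_gt

open Real Filter Topology

/-- A distance-preserving correspondence between two sets extends to their closures. -/
theorem extend {X Y : Type} [MetricSpace X] [MetricSpace Y] [CompleteSpace X] [CompleteSpace Y]
    [Nonempty X] (A : Set X) (B : Set Y) (R : X → Y → Prop) (hA : ∀ x ∈ A, ∃ y ∈ B, R x y)
    (hB : ∀ y ∈ B, ∃ x ∈ A, R x y)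
    (hR : ∀ x ∈ A, ∀ x' ∈ A, ∀ y ∈ B, ∀ y' ∈ B, R x y → R x' y' → dist x x' = dist y y') :
    ∃ Φ : Y → X, Set.BijOn Φ (closure B) (closure A) ∧
      (∀ p ∈ closure B, ∀ q ∈ closure B, dist (Φ p) (Φ q) = dist p q) ∧
      ∀ x ∈ A, ∀ y ∈ B, R x y → Φ y = x := by
  classical
  choose! f hfA hfR using hB
  have hfd : ∀ y ∈ B, ∀ y' ∈ B, dist (f y) (f y') = dist y y' := fun y hy y' hy' =>
    hR _ (hfA y hy) _ (hfA y' hy') y hy y' hy' (hfR y hy) (hfR y' hy')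
  have hex : ∀ q ∈ closure B, ∃ x : X, ∃ u : ℕ → Y, (∀ n, u n ∈ B) ∧ Tendsto u atTop (𝓝 q) ∧
      Tendsto (fun n => f (u n)) atTop (𝓝 x) := by
    intro q hq
    obtain ⟨u, hu, hulim⟩ := mem_closure_iff_seq_limit.mp hq
    have hc : CauchySeq (fun n => f (u n)) := by
      have := hulim.cauchySeq
      rw [Metric.cauchySeq_iff] at this ⊢
      intro ε hε
      obtain ⟨N, hN⟩ := this ε hε
      refine ⟨N, fun a ha b hb => ?_⟩
      rw [hfd _ (hu a) _ (hu b)]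
      exact hN a ha b hb
    obtain ⟨x, hx⟩ := cauchySeq_tendsto_of_complete hc
    exact ⟨x, u, hu, hulim, hx⟩
  choose! Φ u huB hulim hΦlim using hex
  have hdist : ∀ p ∈ closure B, ∀ q ∈ closure B, dist (Φ p) (Φ q) = dist p q := by
    intro p hp q hq
    have h1 := (hΦlim p hp).dist (hΦlim q hq)
    have h2 := (hulim p hp).dist (hulim q hq)
    refine tendsto_nhds_unique h1 (h2.congr (fun n => ?_))
    exact (hfd _ (huB p hp n) _ (huB q hq n)).symm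
  have hval : ∀ x ∈ A, ∀ y ∈ B, R x y → Φ y = x := by
    intro x hx y hy hxy
    have hy' := subset_closure hy
    have h1 := (hΦlim y hy').dist (tendsto_const_nhds (x := x))
    have h2 := (hulim y hy').dist (tendsto_const_nhds (x := y))
    rw [dist_self] at h2
    have h3 : dist (Φ y) x = 0 := by
      refine tendsto_nhds_unique h1 (h2.congr (fun n => ?_))
      exact (hR _ (hfA _ (huB y hy' n)) _ hx _ (huB y hy' n) _ hy (hfR _ (huB y hy' n)) hxy).symm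
    exact eq_of_dist_eq_zero h3
  refine ⟨Φ, ⟨?_, ?_, ?_⟩, hdist, hval⟩
  · intro q hq
    exact mem_closure_of_tendsto (hΦlim q hq) (Eventually.of_forall fun n => hfA _ (huB q hq n))
  · intro p hp q hq hpq
    apply eq_of_dist_eq_zero
    rw [← hdist p hp q hq, hpq, dist_self]
  · intro x hx
    obtain ⟨a, ha, halim⟩ := mem_closure_iff_seq_limit.mp hx
    have hg : ∀ n, ∃ z ∈ B, R (a n) z := fun n => hA _ (ha n)
    choose g hgB hgR using hg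
    have hc : CauchySeq g := by
      have := halim.cauchySeq
      rw [Metric.cauchySeq_iff] at this ⊢
      intro ε hε
      obtain ⟨N, hN⟩ := this ε hε
      refine ⟨N, fun i hi j hj => ?_⟩
      rw [← hR _ (ha i) _ (ha j) _ (hgB i) _ (hgB j) (hgR i) (hgR j)]
      exact hN i hi j hj
    obtain ⟨q, hq⟩ := cauchySeq_tendsto_of_complete hc
    have hqB : q ∈ closure B := mem_closure_of_tendsto hq (Eventually.of_forall fun n => hgB n)
    refine ⟨q, hqB, ?_⟩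
    have h1 : Tendsto (fun n => dist (Φ q) (a n)) atTop (𝓝 (dist (Φ q) x)) :=
      tendsto_const_nhds.dist halim
    have h2 : Tendsto (fun n => dist q (g n)) atTop (𝓝 (dist q q)) :=
      tendsto_const_nhds.dist hq
    rw [dist_self] at h2
    apply eq_of_dist_eq_zero
    refine tendsto_nhds_unique h1 (h2.congr (fun n => ?_))
    rw [← hval _ (ha n) _ (hgB n) (hgR n), hdist _ hqB _ (subset_closure (hgB n))]

/-- In nonpositive curvature, the ray from `y` asymptotic to `γ` lies in the ideal triangle. -/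
theorem ray_mem {M : Type} [MetricSpace M] (hG : IsGeodesicSpace M) (hN : IsNonposCurved M)
    {γ δ : ℝ → M} (hδ : IsRay δ) {K : ℝ}
    (hK : ∀ t, 0 ≤ t → dist (δ t) (γ t) ≤ K) {s : ℝ} (hs : 0 ≤ s) :
    δ s ∈ idealTriangle γ (δ 0) := by
  unfold idealTriangle
  rw [Metric.mem_closure_iff]
  intro ε hε
  have hK0 : 0 ≤ K := le_trans dist_nonneg (hK 0 le_rfl)
  -- choose a large time
  obtain ⟨n, hn1, hn2⟩ : ∃ n : ℝ, s + K + 1 ≤ n ∧ s * (2 * K) < ε * (n - K) := by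
    refine ⟨max (s + K + 1) (K + (s * (2 * K) + 1) / ε), le_max_left _ _, ?_⟩
    have h1 : K + (s * (2 * K) + 1) / ε ≤ max (s + K + 1) (K + (s * (2 * K) + 1) / ε) :=
      le_max_right _ _
    have h2 : ε * ((s * (2 * K) + 1) / ε) = s * (2 * K) + 1 := by field_simp
    nlinarith [mul_le_mul_of_nonneg_left h1 hε.le]
  have hn0 : 0 ≤ n := by linarith
  set L := dist (δ 0) (γ n) with hL
  have e0 : dist (δ 0) (δ n) = n := hδ.dist_zero hn0
  have hL1 : n - K ≤ L := by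
    have h1 := dist_triangle (δ 0) (γ n) (δ n)
    have h2 := hK n hn0
    rw [dist_comm (γ n) (δ n)] at h1
    linarith
  have hL2 : L ≤ n + K := by
    have h1 := dist_triangle (δ 0) (δ n) (γ n)
    have h2 := hK n hn0
    linarith
  have hLpos : 0 < L := by linarith
  have hsL : s ≤ L := by linarith
  obtain ⟨q, hq, hqs⟩ := exists_btw' hG (δ 0) (γ n) hs hsL
  refine ⟨q, ⟨n, hn0, hq⟩, ?_⟩
  -- the point `δ L`
  have hAB : dist (δ L) (γ n) ≤ 2 * K := by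
    have h1 := dist_triangle (δ L) (δ n) (γ n)
    have h2 := hK n hn0
    have h3 : dist (δ L) (δ n) = |L - n| := hδ L hLpos.le n hn0
    have h4 : |L - n| ≤ K := abs_le.mpr ⟨by linarith, by linarith⟩
    linarith
  have e1 : dist (δ 0) (δ L) = L := hδ.dist_zero hLpos.le
  have e2 : dist (δ 0) (δ s) = s := hδ.dist_zero hs
  have e3 : dist (δ s) (δ L) = L - s := by
    rw [hδ s hs L hLpos.le, abs_of_nonpos (by linarith)]; ring
  have e4 : dist q (γ n) = L - s := by unfold Btw at hq; linarith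
  have s1 := hN (δ 0) q (γ n) (δ L) hq
  have b2 : Btw (δ 0) (δ s) (δ L) := by unfold Btw; rw [e1, e2, e3]; ring
  have s2 := hN (δ 0) (δ s) (δ L) q b2
  rw [← hL, e4, hqs, dist_comm (δ L) (δ 0), e1, dist_comm (δ L) q] at s1
  rw [e1, e3, dist_comm q (δ 0), hqs, e2, dist_comm q (δ s)] at s2
  -- L * |δs q|^2 ≤ (L-s) s^2 + s |q δL|^2 - s (L-s) L
  set A := dist q (δ L) ^ 2 with hA
  set B := dist (δ L) (γ n) ^ 2 with hB
  set C := dist (δ s) q with hC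
  have hC0 : 0 ≤ C := dist_nonneg
  have hBK : B ≤ (2 * K) ^ 2 := by
    rw [hB]; exact pow_le_pow_left₀ dist_nonneg hAB 2
  have h5 : L ^ 2 * C ^ 2 ≤ s ^ 2 * B := by
    have m1 := mul_le_mul_of_nonneg_left s1 hs
    have m2 := mul_le_mul_of_nonneg_left s2 hLpos.le
    nlinarith
  have h6 : (L * C) ^ 2 ≤ (s * (2 * K)) ^ 2 := by
    rw [mul_pow, mul_pow]
    exact h5.trans (mul_le_mul_of_nonneg_left hBK (sq_nonneg s))
  have h7 : L * C ≤ s * (2 * K) := by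
    apply le_of_sq_le_sq h6
    positivity
  have h8 : L * C < ε * L := by
    have : ε * (n - K) ≤ ε * L := mul_le_mul_of_nonneg_left hL1 hε.le
    linarith
  have h9 : C < ε := by
    by_contra h
    have h := not_lt.mp h
    have := mul_le_mul_of_nonneg_left h hLpos.le
    linarith
  exact h9

/-- The rigidity theorem. -/
theorem rigidity {M : Type} [MetricSpace M] [CompleteSpace M] (hG : IsGeodesicSpace M)
    (hN : IsNonposCurved M) (hT : IsCurvGeNegOne M) {m : ℕ} {γ : ℝ → M} (hγ : IsRay γ) {y : M}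
    {σ : ℝ → M} (hσ : IsSeg σ (γ 0) y) (hy : y ≠ γ 0) {γ₁ : ℝ → Hyp m} (hγ₁ : IsRay γ₁)
    {y₁ : Hyp m} {σ₁ : ℝ → Hyp m} (hσ₁ : IsSeg σ₁ (γ₁ 0) y₁)
    (hd : dist (γ 0) y = dist (γ₁ 0) y₁) {b : ℝ} (hb : IsBusemann γ y b)
    (hb₁ : IsBusemann γ₁ y₁ b) {θ : ℝ} (hθ : IsAngle γ σ θ) (hθ₁ : IsAngle γ₁ σ₁ θ) :
    IsGeodConvex (idealTriangle γ y) ∧
    ∃ Φ : Hyp m → M,
      Set.BijOn Φ (idealTriangle γ₁ y₁) (idealTriangle γ y) ∧
      (∀ p ∈ idealTriangle γ₁ y₁, ∀ q ∈ idealTriangle γ₁ y₁, dist (Φ p) (Φ q) = dist p q) ∧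
      (∀ s ∈ Set.Icc 0 (dist (γ₁ 0) y₁), σ₁ s ∈ idealTriangle γ₁ y₁ ∧ Φ (σ₁ s) = σ s) ∧
      (∀ t, 0 ≤ t → γ₁ t ∈ idealTriangle γ₁ y₁ ∧ Φ (γ₁ t) = γ t) ∧
      ∀ δ : ℝ → M, IsRay δ → δ 0 = y → (∃ K, ∀ t, 0 ≤ t → dist (δ t) (γ t) ≤ K) →
        ∃ δ₁ : ℝ → Hyp m, IsRay δ₁ ∧ δ₁ 0 = y₁ ∧ (∃ K, ∀ t, 0 ≤ t → dist (δ₁ t) (γ₁ t) ≤ K) ∧
          ∀ t, 0 ≤ t → δ₁ t ∈ idealTriangle γ₁ y₁ ∧ Φ (δ₁ t) = δ t := by
  have : Nonempty M := ⟨y⟩
  have hy0 : 0 < dist (γ 0) y := dist_pos.mpr hy.symm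
  -- step F0
  have hF0 : ∀ s t, 0 ≤ s → s ≤ dist (γ 0) y → 0 ≤ t → dist (σ s) (γ t) = dist (σ₁ s) (γ₁ t) :=
    fun s t h1 h2 h3 => stepF0 hT hγ hσ hy0 hθ hγ₁ hσ₁ hθ₁ hd hb hb₁ h1 h2 h3
  have F : ∀ t, 0 ≤ t → dist y (γ t) = dist y₁ (γ₁ t) := by
    intro t ht
    have := hF0 (dist (γ 0) y) t dist_nonneg le_rfl ht
    rwa [hσ.2.1, hd, hσ₁.2.1] at this
  -- positions on the side `[x, y]`
  have hside : ∀ p, Btw y p (γ 0) → p = σ (dist (γ 0) y - dist y p) := by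
    intro p hp
    have hle : dist y p ≤ dist (γ 0) y := by
      have := hp.le
      rwa [dist_comm y (γ 0)] at this
    have h0 : 0 ≤ dist (γ 0) y - dist y p := by linarith
    have b := hσ.btw h0 (show dist (γ 0) y - dist y p ≤ dist (γ 0) y by
      linarith [dist_nonneg (x := y) (y := p)]) le_rfl
    rw [hσ.2.1] at b
    refine btw_unique' hN hp.symm b ?_
    rw [hσ.dist_zero h0 (by linarith [dist_nonneg (x := y) (y := p)])]
    unfold Btw at hp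
    rw [dist_comm (γ 0) p, dist_comm (γ 0) y]
    linarith
  have hside₁ : ∀ p₁, Btw y₁ p₁ (γ₁ 0) → p₁ = σ₁ (dist (γ₁ 0) y₁ - dist y₁ p₁) := by
    intro p hp
    have hle : dist y₁ p ≤ dist (γ₁ 0) y₁ := by
      have := hp.le
      rwa [dist_comm y₁ (γ₁ 0)] at this
    have h0 : 0 ≤ dist (γ₁ 0) y₁ - dist y₁ p := by linarith
    have b := hσ₁.btw h0 (show dist (γ₁ 0) y₁ - dist y₁ p ≤ dist (γ₁ 0) y₁ by
      linarith [dist_nonneg (x := y₁) (y := p)]) le_rfl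
    rw [hσ₁.2.1] at b
    refine Hyp.btw_unique hp.symm b ?_
    rw [hσ₁.dist_zero h0 (by linarith [dist_nonneg (x := y₁) (y := p)])]
    unfold Btw at hp
    rw [dist_comm (γ₁ 0) p, dist_comm (γ₁ 0) y₁]
    linarith
  -- step D
  have D : ∀ t, 0 ≤ t → ∀ p p₁, Btw y p (γ t) → Btw y₁ p₁ (γ₁ t) → dist y p = dist y₁ p₁ →
      ∀ τ, 0 ≤ τ → dist p (γ τ) = dist p₁ (γ₁ τ) := by
    intro t ht p p₁ hp hp₁ h τ hτ
    rcases ht.eq_or_lt with h0 | h0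
    · rw [← h0] at hp hp₁
      rw [hside p hp, hside₁ p₁ hp₁, ← h, ← hd]
      have hle : dist y p ≤ dist (γ 0) y := by
        have := hp.le
        rwa [dist_comm y (γ 0)] at this
      exact hF0 _ _ (by linarith) (by linarith [dist_nonneg (x := y) (y := p)]) hτ
    · exact stepD hT hγ hγ₁ F h0 hp hp₁ h hτ
  have E := fun {t t' : ℝ} (ht : 0 ≤ t) (ht' : 0 ≤ t') {p q : M} {p₁ q₁ : Hyp m} =>
    stepE (p := p) (q := q) (p₁ := p₁) (q₁ := q₁) hG hT hN F D ht ht'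
  -- the correspondence
  set A : Set M := {p | ∃ t, 0 ≤ t ∧ Btw y p (γ t)} with hAdef
  set B : Set (Hyp m) := {p | ∃ t, 0 ≤ t ∧ Btw y₁ p (γ₁ t)} with hBdef
  set R : M → Hyp m → Prop := fun p p₁ => ∃ t, 0 ≤ t ∧ Btw y p (γ t) ∧ Btw y₁ p₁ (γ₁ t) ∧
    dist y p = dist y₁ p₁ with hRdef
  have hRd : ∀ x ∈ A, ∀ x' ∈ A, ∀ z ∈ B, ∀ z' ∈ B, R x z → R x' z' → dist x x' = dist z z' := by
    rintro x - x' - z - z' - ⟨t, ht, h1, h2, h3⟩ ⟨t', ht', h1', h2', h3'⟩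
    exact E ht ht' h1 h2 h3 h1' h2' h3'
  obtain ⟨Φ, hbij, hdist, hval⟩ := extend A B R
    (by
      rintro x ⟨t, ht, h1⟩
      obtain ⟨z, hz, hzd⟩ := Hyp.exists_btw y₁ (γ₁ t) (u := dist y x) dist_nonneg
        (by rw [← F t ht]; exact h1.le)
      exact ⟨z, ⟨t, ht, hz⟩, t, ht, h1, hz, hzd.symm⟩)
    (by
      rintro z ⟨t, ht, h1⟩
      obtain ⟨x, hx, hxd⟩ := exists_btw' hG y (γ t) (u := dist y₁ z) dist_nonneg
        (by rw [F t ht]; exact h1.le)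
      exact ⟨x, ⟨t, ht, hx⟩, t, ht, hx, h1, hxd⟩)
    hRd
  have hγval : ∀ t, 0 ≤ t → γ₁ t ∈ idealTriangle γ₁ y₁ ∧ Φ (γ₁ t) = γ t := by
    intro t ht
    have h1 : Btw y (γ t) (γ t) := by simp [Btw]
    have h2 : Btw y₁ (γ₁ t) (γ₁ t) := by simp [Btw]
    exact ⟨subset_closure ⟨t, ht, h2⟩, hval _ ⟨t, ht, h1⟩ _ ⟨t, ht, h2⟩ ⟨t, ht, h1, h2, F t ht⟩⟩
  have hsval : ∀ s ∈ Set.Icc 0 (dist (γ₁ 0) y₁), σ₁ s ∈ idealTriangle γ₁ y₁ ∧ Φ (σ₁ s) = σ s := by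
    intro s hs
    have hs' : s ≤ dist (γ 0) y := by rw [hd]; exact hs.2
    have b1 := hσ.btw hs.1 hs' le_rfl
    have b2 := hσ₁.btw hs.1 hs.2 le_rfl
    rw [hσ.2.1] at b1
    rw [hσ₁.2.1] at b2
    have h1 := b1.symm
    have h2 := b2.symm
    have h3 : dist y (σ s) = dist y₁ (σ₁ s) := by
      have e1 := hσ.dist_zero hs.1 hs'
      have e2 := hσ₁.dist_zero hs.1 hs.2
      unfold Btw at b1 b2
      rw [dist_comm y, dist_comm y₁]
      linarith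
    exact ⟨subset_closure ⟨0, le_rfl, h2⟩, hval _ ⟨0, le_rfl, h1⟩ _ ⟨0, le_rfl, h2⟩
      ⟨0, le_rfl, h1, h2, h3⟩⟩
  have hyval : y₁ ∈ idealTriangle γ₁ y₁ ∧ Φ y₁ = y := by
    have := hsval (dist (γ₁ 0) y₁) ⟨dist_nonneg, le_rfl⟩
    rw [hσ₁.2.1] at this
    refine ⟨this.1, ?_⟩
    rw [this.2, ← hd, hσ.2.1]
  refine ⟨?_, Φ, hbij, hdist, hsval, hγval, ?_⟩
  · -- convexity
    intro p hp q hq r hr
    obtain ⟨p₁, hp₁, rfl⟩ := hbij.surjOn hp
    obtain ⟨q₁, hq₁, rfl⟩ := hbij.surjOn hq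
    obtain ⟨r₁, hr₁, hrd⟩ := Hyp.exists_btw p₁ q₁ (u := dist (Φ p₁) r) dist_nonneg
      (by rw [← hdist p₁ hp₁ q₁ hq₁]; exact hr.le)
    have hmem : r₁ ∈ idealTriangle γ₁ y₁ := Hyp.convex_idealTriangle hγ₁ y₁ p₁ hp₁ q₁ hq₁ r₁ hr₁
    have hr' : Btw (Φ p₁) (Φ r₁) (Φ q₁) := by
      unfold Btw at hr₁ ⊢
      rw [hdist _ hp₁ _ hmem, hdist _ hmem _ hq₁, hdist _ hp₁ _ hq₁, hr₁]
    have : r = Φ r₁ := btw_unique' hN hr hr' (by rw [hdist _ hp₁ _ hmem, hrd])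
    rw [this]
    exact hbij.mapsTo hmem
  · -- the third side
    rintro δ hδ hδ0 ⟨K, hK⟩
    have hmem : ∀ t, 0 ≤ t → δ t ∈ idealTriangle γ y := by
      intro t ht
      have := ray_mem hG hN hδ hK ht
      rwa [hδ0] at this
    have hex : ∀ t : ℝ, ∃ z : Hyp m, 0 ≤ t → (z ∈ idealTriangle γ₁ y₁ ∧ Φ z = δ t) := by
      intro t
      by_cases ht : 0 ≤ t
      · obtain ⟨z, hz, hz'⟩ := hbij.surjOn (hmem t ht)
        exact ⟨z, fun _ => ⟨hz, hz'⟩⟩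
      · exact ⟨y₁, fun h => absurd h ht⟩
    choose δ₁ hδ₁ using hex
    refine ⟨δ₁, ?_, ?_, ⟨K, ?_⟩, hδ₁⟩
    · intro s hs t ht
      rw [← hdist _ (hδ₁ s hs).1 _ (hδ₁ t ht).1, (hδ₁ s hs).2, (hδ₁ t ht).2, hδ s hs t ht]
    · apply hbij.injOn (hδ₁ 0 le_rfl).1 hyval.1
      rw [(hδ₁ 0 le_rfl).2, hyval.2, hδ0]
    · intro t ht
      rw [← hdist _ (hδ₁ t ht).1 _ (hγval t ht).1, (hδ₁ t ht).2, (hγval t ht).2]
      exact hK t ht

end Pool.Agent.Work.MP_a6f1bd_gt
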