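import Pool.Agent.Work.MP_a6f1bd_gt.Defs

/-!
Facts about the hyperboloid model.
-/

namespace Pool.Agent.Work.MP_a6f1bd_gt

open Real Filter Topology

theorem sq_half_le_cosh (d : ℝ) : 1 + d ^ 2 / 2 ≤ cosh d := by
  have h1 : cosh d = 1 + 2 * sinh (d / 2) ^ 2 := by
    have := cosh_two_mul (d / 2)
    rw [show 2 * (d / 2) = d by ring, Real.cosh_sq] at this
    linarith
  have h2 : (d / 2) ^ 2 ≤ sinh (d / 2) ^ 2 := by
    rw [sq_le_sq, abs_sinh]
    exact self_le_sinh_iff.mpr (abs_nonneg _)
  nlinarith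

namespace Hyp

variable {m : ℕ}

/-- The position of an intermediate point. -/
theorem vec_btw {y p z : Hyp m} (h : Btw y p z) :
    sinh (dist y z) • p.vec = sinh (dist p z) • y.vec + sinh (dist y p) • z.vec := by
  unfold Btw at h
  set d1 := dist y p with hd1
  set d2 := dist p z with hd2
  have hc1 : lor y.vec p.vec = cosh d1 := (cosh_dist y p).symm
  have hc2 : lor p.vec z.vec = cosh d2 := (cosh_dist p z).symm
  have hc : lor y.vec z.vec = cosh d1 * cosh d2 + sinh d1 * sinh d2 := by
    rw [← cosh_dist, ← h, cosh_add]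
  have hzp : lor z.vec p.vec = cosh d2 := by rw [lor_comm, hc2]
  have hpy : lor p.vec y.vec = cosh d1 := by rw [lor_comm, hc1]
  have hzy : lor z.vec y.vec = cosh d1 * cosh d2 + sinh d1 * sinh d2 := by rw [lor_comm, hc]
  have hpp := lor_self p
  have hyy := lor_self y
  have hzz := lor_self z
  have e1 := Real.cosh_sq d1
  have e2 := Real.cosh_sq d2
  set w := sinh d2 • (y.vec - cosh d1 • p.vec) + sinh d1 • (z.vec - cosh d2 • p.vec) with hw
  have hw0 : w = 0 := by
    apply eq_zero_of_orth p
    · rw [hw]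
      simp only [lor_add_left, lor_sub_left, lor_smul_left, hc1, hpp, hzp]
      ring
    · rw [hw]
      simp only [lor_add_left, lor_sub_left, lor_smul_left, lor_add_right, lor_sub_right,
        lor_smul_right, hc1, hc2, hpp, hzp, hpy, hyy, hzz, hc, hzy]
      have e1' : cosh d1 ^ 2 = sinh d1 ^ 2 + 1 := e1
      have e2' : cosh d2 ^ 2 = sinh d2 ^ 2 + 1 := e2
      ring_nf
      rw [e1', e2']
      ring
  rw [← h, sinh_add, add_smul]
  have h3 : sinh d2 • y.vec + sinh d1 • z.vec =
      w + (sinh d1 * cosh d2) • p.vec + (cosh d1 * sinh d2) • p.vec := by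
    rw [hw]
    module
  rw [h3, hw0, zero_add]

/-- Equality in Toponogov's comparison. -/
theorem eq_btw {y p z : Hyp m} (h : Btw y p z) (q : Hyp m) :
    sinh (dist p z) * cosh (dist q y) + sinh (dist y p) * cosh (dist q z)
      = sinh (dist y z) * cosh (dist q p) := by
  rw [cosh_dist, cosh_dist, cosh_dist, ← lor_smul_right, ← lor_smul_right, ← lor_smul_right,
    ← lor_add_right, vec_btw h]

/-- Build a point from a normalised vector. -/
theorem exists_of_vec (w : ℝ × EuclideanSpace ℝ (Fin m)) (hpos : 0 < w.1) (h : lor w w = 1) :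
    ∃ g : Hyp m, g.vec = w := by
  refine ⟨⟨w.1, w.2, hpos, ?_⟩, rfl⟩
  unfold lor at h
  rw [real_inner_self_eq_norm_sq] at h
  nlinarith

/-- Positive combinations of two points. -/
theorem exists_comb (p q : Hyp m) {α β : ℝ} (hα : 0 ≤ α) (hβ : 0 ≤ β) (hne : 0 < α + β) :
    ∃ (g : Hyp m) (c : ℝ), 0 < c ∧ α • p.vec + β • q.vec = c • g.vec ∧ Btw p g q ∧
      c ^ 2 = α ^ 2 + β ^ 2 + 2 * α * β * lor p.vec q.vec := by
  set D := lor p.vec q.vec with hD
  have hD1 : 1 ≤ D := one_le_lor p q
  set w := α • p.vec + β • q.vec with hw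
  have hww : lor w w = α ^ 2 + β ^ 2 + 2 * α * β * D := by
    rw [hw]
    simp only [lor_add_left, lor_smul_left, lor_add_right, lor_smul_right, lor_self,
      lor_comm q.vec p.vec, ← hD]
    ring
  have hpos : 0 < lor w w := by
    rw [hww]
    have h1 : 0 ≤ α * β := mul_nonneg hα hβ
    nlinarith [mul_le_mul_of_nonneg_left hD1 h1, sq_nonneg (α - β), mul_pos hne hne]
  set c := sqrt (lor w w) with hc
  have hcpos : 0 < c := Real.sqrt_pos.mpr hpos
  have hcsq : c ^ 2 = lor w w := Real.sq_sqrt hpos.le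
  have hw1 : 0 < w.1 := by
    rw [hw]
    show 0 < α * p.t + β * q.t
    rcases hα.eq_or_lt with h | h
    · rw [← h] at hne ⊢
      have : 0 < β := by linarith
      have := mul_pos this q.pos
      linarith
    · have h2 := mul_pos h p.pos
      have h3 := mul_nonneg hβ q.pos.le
      linarith
  obtain ⟨g, hg⟩ := exists_of_vec (c⁻¹ • w) (by
    show 0 < c⁻¹ * w.1
    positivity) (by
    rw [lor_smul_left, lor_smul_right, ← hcsq]
    field_simp)
  have hwg : w = c • g.vec := by
    rw [hg, smul_smul, mul_inv_cancel₀ hcpos.ne', one_smul]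
  refine ⟨g, c, hcpos, hwg, ?_, by rw [hcsq, hww]⟩
  -- betweenness
  have hpg : lor p.vec g.vec = (α + β * D) / c := by
    rw [hg, lor_smul_right, hw, lor_add_right, lor_smul_right, lor_smul_right, lor_self, ← hD]
    field_simp
  have hgq : lor g.vec q.vec = (α * D + β) / c := by
    rw [hg, lor_smul_left, hw, lor_add_left, lor_smul_left, lor_smul_left, lor_self, ← hD]
    field_simp
  have hcc : c ^ 2 = α ^ 2 + β ^ 2 + 2 * α * β * D := by rw [hcsq, hww]
  have hS : 0 ≤ sqrt (D ^ 2 - 1) := Real.sqrt_nonneg _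
  have hSsq : sqrt (D ^ 2 - 1) ^ 2 = D ^ 2 - 1 := Real.sq_sqrt (by nlinarith)
  have hs1 : sinh (dist p g) = β * sqrt (D ^ 2 - 1) / c := by
    have h1 := sinh_sq p g
    rw [hpg] at h1
    have h2 : sinh (dist p g) ^ 2 = (β * sqrt (D ^ 2 - 1) / c) ^ 2 := by
      have hc2 : c ^ 2 ≠ 0 := by positivity
      rw [h1, div_pow, div_pow, mul_pow, hSsq, div_sub_one hc2]
      congr 1
      rw [hcc]
      ring
    exact (sq_eq_sq₀ (sinh_nonneg_iff.mpr dist_nonneg) (by positivity)).mp h2
  have hs2 : sinh (dist g q) = α * sqrt (D ^ 2 - 1) / c := by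
    have h1 := sinh_sq g q
    rw [hgq] at h1
    have h2 : sinh (dist g q) ^ 2 = (α * sqrt (D ^ 2 - 1) / c) ^ 2 := by
      have hc2 : c ^ 2 ≠ 0 := by positivity
      rw [h1, div_pow, div_pow, mul_pow, hSsq, div_sub_one hc2]
      congr 1
      rw [hcc]
      ring
    exact (sq_eq_sq₀ (sinh_nonneg_iff.mpr dist_nonneg) (by positivity)).mp h2
  have hfin : cosh (dist p g + dist g q) = cosh (dist p q) := by
    rw [cosh_add, cosh_dist, cosh_dist, cosh_dist, hs1, hs2, hpg, hgq, ← hD]
    have h3 : β * sqrt (D ^ 2 - 1) / c * (α * sqrt (D ^ 2 - 1) / c) =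
        α * β * (D ^ 2 - 1) / c ^ 2 := by
      have : β * sqrt (D ^ 2 - 1) / c * (α * sqrt (D ^ 2 - 1) / c) =
        α * β * (sqrt (D ^ 2 - 1) ^ 2) / c ^ 2 := by ring
      rw [this, hSsq]
    have hc2 : c ^ 2 ≠ 0 := by positivity
    have h4 : (α + β * D) / c * ((α * D + β) / c) = (α + β * D) * (α * D + β) / c ^ 2 := by
      ring
    rw [h3, h4, ← add_div, div_eq_iff hc2, hcc]
    ring
  unfold Btw
  have := congrArg arcosh hfin
  rwa [arcosh_cosh (by positivity), arcosh_cosh dist_nonneg] at this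

/-- Intermediate points exist. -/
theorem exists_btw (y z : Hyp m) {u : ℝ} (h0 : 0 ≤ u) (h1 : u ≤ dist y z) :
    ∃ p : Hyp m, Btw y p z ∧ dist y p = u := by
  rcases (dist_nonneg (x := y) (y := z)).eq_or_lt with h | h
  · refine ⟨y, by simp [Btw], ?_⟩
    rw [dist_self]
    linarith
  · set d := dist y z with hd
    have hs : 0 < sinh d := sinh_pos_iff.mpr h
    have hα : 0 ≤ sinh (d - u) / sinh d := div_nonneg (sinh_nonneg_iff.mpr (by linarith)) hs.le
    have hβ : 0 ≤ sinh u / sinh d := div_nonneg (sinh_nonneg_iff.mpr h0) hs.le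
    have hne : 0 < sinh (d - u) / sinh d + sinh u / sinh d := by
      rw [← add_div]
      apply div_pos _ hs
      rcases h0.eq_or_lt with h3 | h3
      · rw [← h3, sub_zero, sinh_zero]; linarith
      · have := sinh_pos_iff.mpr h3
        have := sinh_nonneg_iff.mpr (show 0 ≤ d - u by linarith)
        linarith
    obtain ⟨g, c, hc, hg, hbtw, hcsq⟩ := exists_comb y z hα hβ hne
    refine ⟨g, hbtw, ?_⟩
    have hD : lor y.vec z.vec = cosh d := (cosh_dist y z).symm
    have e1 : sinh (d - u) = sinh d * cosh u - cosh d * sinh u := sinh_sub _ _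
    have e2 := Real.cosh_sq u
    have e3 := Real.cosh_sq d
    have hc1 : c = 1 := by
      have : c ^ 2 = 1 := by
        rw [hcsq, hD, e1]
        field_simp
        ring_nf
        rw [show cosh u ^ 2 = sinh u ^ 2 + 1 from e2, show cosh d ^ 2 = sinh d ^ 2 + 1 from e3]
        ring
      nlinarith
    rw [hc1, one_smul] at hg
    have h5 : cosh (dist y g) = cosh u := by
      rw [cosh_dist, ← hg, lor_add_right, lor_smul_right, lor_smul_right, lor_self, hD, e1]
      field_simp
      ring
    have := congrArg arcosh h5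
    rwa [arcosh_cosh dist_nonneg, arcosh_cosh h0] at this

theorem btw_unique {y p q z : Hyp m} (hp : Btw y p z) (hq : Btw y q z) (h : dist y p = dist y q) :
    p = q := by
  rcases (dist_nonneg (x := y) (y := z)).eq_or_lt with h0 | h0
  · unfold Btw at hp hq
    have h1 : dist y p = 0 := by
      have := dist_nonneg (x := y) (y := p)
      have := dist_nonneg (x := p) (y := z)
      linarith
    have h2 : dist y q = 0 := by rw [← h, h1]
    rw [← eq_of_dist_eq_zero h1, ← eq_of_dist_eq_zero h2]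
  · have h1 := vec_btw hp
    have h2 := vec_btw hq
    have h3 : dist p z = dist q z := by unfold Btw at hp hq; linarith
    rw [h3, h, ← h2] at h1
    apply vec_injective
    exact smul_right_injective _ (sinh_pos_iff.mpr h0).ne' h1

theorem btw_symm {X : Type} [MetricSpace X] {p q r : X} (h : Btw p q r) : Btw r q p := by
  unfold Btw at *
  rw [dist_comm r q, dist_comm q p, dist_comm r p]
  linarith

end Hyp

end Pool.Agent.Work.MP_a6f1bd_gt
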