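import Pool.Agent.Work.MP_a6f1bd_gt.Model

/-!
Completeness of hyperbolic space and convexity of ideal triangles.
-/

namespace Pool.Agent.Work.MP_a6f1bd_gt

open Real Filter Topology

theorem dist_sq_le {X : Type} [MetricSpace X] (p q : X) :
    dist p q ^ 2 ≤ 2 * (cosh (dist p q) - 1) := by
  have := sq_half_le_cosh (dist p q)
  linarith

namespace Hyp

variable {m : ℕ}

/-- the origin -/
def origin (m : ℕ) : Hyp m := ⟨1, 0, one_pos, by simp⟩

theorem t_eq (p : Hyp m) : p.t = cosh (dist p (origin m)) := by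
  rw [cosh_dist]
  simp [lor, vec, origin]

theorem norm_sub_le (p q : Hyp m) {T : ℝ} (hp : p.t ≤ T) (hq : q.t ≤ T) :
    ‖p.v - q.v‖ ^ 2 ≤ 2 * T ^ 2 * (cosh (dist p q) - 1) := by
  rw [cosh_dist]
  have h1 := p.eq
  have h2 := q.eq
  have hin : lor p.vec q.vec = p.t * q.t - inner ℝ p.v q.v := rfl
  have hid : ‖p.v - q.v‖ ^ 2 = ‖p.v‖ ^ 2 - 2 * inner ℝ p.v q.v + ‖q.v‖ ^ 2 :=
    norm_sub_sq_real p.v q.v
  have h3 : ‖p.v - q.v‖ ^ 2 - (p.t - q.t) ^ 2 = 2 * (lor p.vec q.vec - 1) := by
    rw [hid, hin]; nlinarith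
  have h4 : |‖p.v‖ ^ 2 - ‖q.v‖ ^ 2| ≤ ‖p.v - q.v‖ * (‖p.v‖ + ‖q.v‖) := by
    have h5 : ‖p.v‖ ^ 2 - ‖q.v‖ ^ 2 = (‖p.v‖ - ‖q.v‖) * (‖p.v‖ + ‖q.v‖) := by ring
    rw [h5, abs_mul, abs_of_nonneg (show 0 ≤ ‖p.v‖ + ‖q.v‖ by positivity)]
    exact mul_le_mul_of_nonneg_right (abs_norm_sub_norm_le _ _) (by positivity)
  have h5 : (p.t - q.t) * (p.t + q.t) = ‖p.v‖ ^ 2 - ‖q.v‖ ^ 2 := by nlinarith
  have hpt := p.pos
  have hqt := q.pos
  have hT : 0 < T := lt_of_lt_of_le hpt hp
  have h6 : ((p.t - q.t) * (p.t + q.t)) ^ 2 ≤ (‖p.v - q.v‖ * (‖p.v‖ + ‖q.v‖)) ^ 2 := by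
    rw [h5]
    exact sq_le_sq' (by linarith [neg_abs_le (‖p.v‖ ^ 2 - ‖q.v‖ ^ 2)])
      (le_trans (le_abs_self _) h4)
  have h7 : 1 + ‖p.v‖ * ‖q.v‖ ≤ p.t * q.t := by
    apply le_of_sq_le_sq _ (mul_pos hpt hqt).le
    rw [mul_pow, h1, h2]
    nlinarith [sq_nonneg (‖p.v‖ - ‖q.v‖)]
  have h8 : (‖p.v‖ + ‖q.v‖) ^ 2 ≤ (p.t + q.t) ^ 2 - 4 := by nlinarith
  have h9 : (p.t + q.t) ^ 2 ≤ 4 * T ^ 2 := by nlinarith
  set N := ‖p.v - q.v‖ ^ 2 with hN
  set S := (p.t + q.t) ^ 2 with hS
  have hN0 : 0 ≤ N := by positivity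
  have hS0 : 0 < S := by positivity
  have h10 : (p.t - q.t) ^ 2 * S ≤ N * (S - 4) := by
    calc (p.t - q.t) ^ 2 * S = ((p.t - q.t) * (p.t + q.t)) ^ 2 := by rw [hS]; ring
      _ ≤ (‖p.v - q.v‖ * (‖p.v‖ + ‖q.v‖)) ^ 2 := h6
      _ = N * (‖p.v‖ + ‖q.v‖) ^ 2 := by rw [hN]; ring
      _ ≤ N * (S - 4) := mul_le_mul_of_nonneg_left h8 hN0
  -- 4 N ≤ S * (N - (t-s)^2) ≤ 4 T^2 * 2 (lor - 1)
  have h11 : 4 * N ≤ S * (2 * (lor p.vec q.vec - 1)) := by
    rw [← h3]
    nlinarith
  have h12 : 0 ≤ 2 * (lor p.vec q.vec - 1) := by linarith [one_le_lor p q]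
  have h13 : S * (2 * (lor p.vec q.vec - 1)) ≤ 4 * T ^ 2 * (2 * (lor p.vec q.vec - 1)) :=
    mul_le_mul_of_nonneg_right h9 h12
  nlinarith

theorem tendsto_of_cosh {p : ℕ → Hyp m} {q : Hyp m}
    (h : Tendsto (fun n => lor (p n).vec q.vec) atTop (𝓝 1)) : Tendsto p atTop (𝓝 q) := by
  rw [tendsto_iff_dist_tendsto_zero]
  have h1 : Tendsto (fun n => 2 * (lor (p n).vec q.vec - 1)) atTop (𝓝 0) := by
    have := (h.sub_const 1).const_mul 2
    simpa using this
  have h2 : Tendsto (fun n => dist (p n) q ^ 2) atTop (𝓝 0) := by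
    refine squeeze_zero (fun n => by positivity) (fun n => ?_) h1
    have := dist_sq_le (p n) q
    rwa [cosh_dist] at this
  have h3 := h2.sqrt
  simp only [Real.sqrt_zero, Real.sqrt_sq dist_nonneg] at h3
  exact h3

instance : CompleteSpace (Hyp m) := by
  apply Metric.complete_of_cauchySeq_tendsto
  intro u hu
  -- bounded
  obtain ⟨R, hR, hRu⟩ := cauchySeq_bdd hu
  have hbd : ∀ n, (u n).t ≤ cosh (R + dist (u 0) (origin m)) := by
    intro n
    rw [t_eq, cosh_le_cosh, abs_of_nonneg dist_nonneg, abs_of_nonneg (by positivity)]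
    calc dist (u n) (origin m) ≤ dist (u n) (u 0) + dist (u 0) (origin m) := dist_triangle _ _ _
      _ ≤ R + dist (u 0) (origin m) := by linarith [hRu n 0]
  set T := cosh (R + dist (u 0) (origin m)) with hT
  have hTpos : 0 < T := cosh_pos _
  have hcau : CauchySeq (fun n => (u n).v) := by
    rw [Metric.cauchySeq_iff] at hu ⊢
    intro ε hε
    -- choose δ with 2 T² (cosh δ - 1) < ε²
    have hcont : Tendsto (fun x : ℝ => 2 * T ^ 2 * (cosh x - 1)) (𝓝 0) (𝓝 0) := by
      have : Continuous (fun x : ℝ => 2 * T ^ 2 * (cosh x - 1)) := by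
        have := Real.continuous_cosh
        fun_prop
      have h := this.tendsto 0
      simpa using h
    have hev := hcont.eventually (gt_mem_nhds (show (0:ℝ) < ε ^ 2 by positivity))
    rw [Metric.eventually_nhds_iff] at hev
    obtain ⟨δ, hδ, hev⟩ := hev
    obtain ⟨N, hN⟩ := hu δ hδ
    refine ⟨N, fun a ha b hb => ?_⟩
    have h1 := norm_sub_le (u a) (u b) (hbd a) (hbd b)
    have h2 := hev (y := dist (u a) (u b)) (by
      rw [Real.dist_eq, sub_zero, abs_of_nonneg dist_nonneg]
      exact hN a ha b hb)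
    rw [dist_eq_norm]
    exact lt_of_pow_lt_pow_left₀ 2 hε.le (lt_of_le_of_lt h1 h2)
  obtain ⟨w, hw⟩ := cauchySeq_tendsto_of_complete hcau
  let q : Hyp m := ⟨sqrt (1 + ‖w‖ ^ 2), w, by positivity, Real.sq_sqrt (by positivity)⟩
  refine ⟨q, tendsto_of_cosh ?_⟩
  have h1 : ∀ n, (u n).t = sqrt (1 + ‖(u n).v‖ ^ 2) := by
    intro n
    rw [← (u n).eq, Real.sqrt_sq (u n).pos.le]
  have h2 : Tendsto (fun n => (u n).t) atTop (𝓝 q.t) := by
    simp only [h1]
    exact ((hw.norm.pow 2).const_add 1).sqrt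
  have h3 : Tendsto (fun n => lor (u n).vec q.vec) atTop (𝓝 (q.t * q.t - inner ℝ w w)) := by
    exact (h2.mul_const q.t).sub (hw.inner tendsto_const_nhds)
  have h4 : q.t * q.t - inner ℝ w w = 1 := lor_self q
  rwa [h4] at h3

theorem isRay_btw {X : Type} [MetricSpace X] {γ : ℝ → X} (hγ : IsRay γ) {a b c : ℝ} (ha : 0 ≤ a)
    (hab : a ≤ b) (hbc : b ≤ c) : Btw (γ a) (γ b) (γ c) := by
  unfold Btw
  rw [hγ a ha b (ha.trans hab), hγ b (ha.trans hab) c ((ha.trans hab).trans hbc),
    hγ a ha c ((ha.trans hab).trans hbc), abs_of_nonpos (by linarith), abs_of_nonpos (by linarith),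
    abs_of_nonpos (by linarith)]
  ring

/-- The union of the segments from `y` to the points of a ray is convex. -/
theorem convex_fin {γ : ℝ → Hyp m} (hγ : IsRay γ) (y : Hyp m) :
    IsGeodConvex {p | ∃ t, 0 ≤ t ∧ Btw y p (γ t)} := by
  -- symmetric core
  have core : ∀ (p q r : Hyp m) (t t' : ℝ), 0 ≤ t → t ≤ t' → Btw y p (γ t) → Btw y q (γ t') →
      Btw p r q → ∃ τ, 0 ≤ τ ∧ Btw y r (γ τ) := by
    intro p q r t t' ht htt' hp hq hr
    -- nonneg coefficients
    have coef : ∀ {a b c : Hyp m}, Btw a b c → ∃ α β : ℝ, 0 ≤ α ∧ 0 ≤ β ∧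
        b.vec = α • a.vec + β • c.vec := by
      intro a b c h
      rcases (dist_nonneg (x := a) (y := c)).eq_or_lt with h0 | h0
      · have h1 : dist a b = 0 := by
          unfold Btw at h
          have := dist_nonneg (x := a) (y := b)
          have := dist_nonneg (x := b) (y := c)
          linarith
        refine ⟨1, 0, zero_le_one, le_rfl, ?_⟩
        rw [eq_of_dist_eq_zero h1]
        simp
      · have hs := sinh_pos_iff.mpr h0
        have hv := vec_btw h
        refine ⟨sinh (dist b c) / sinh (dist a c), sinh (dist a b) / sinh (dist a c),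
          div_nonneg (sinh_nonneg_iff.mpr dist_nonneg) hs.le,
          div_nonneg (sinh_nonneg_iff.mpr dist_nonneg) hs.le, ?_⟩
        have : b.vec = (sinh (dist a c))⁻¹ • (sinh (dist a c) • b.vec) := by
          rw [smul_smul, inv_mul_cancel₀ hs.ne', one_smul]
        rw [this, hv, smul_add, smul_smul, smul_smul]
        congr 2 <;> ring
    obtain ⟨α1, β1, hα1, hβ1, e1⟩ := coef hp
    obtain ⟨α2, β2, hα2, hβ2, e2⟩ := coef hq
    obtain ⟨α3, β3, hα3, hβ3, e3⟩ := coef hr
    -- r = A y + B γ t + C γ t'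
    have e4 : r.vec = (α3 * α1 + β3 * α2) • y.vec + ((α3 * β1) • (γ t).vec
        + (β3 * β2) • (γ t').vec) := by
      rw [e3, e1, e2]
      module
    have hA : 0 ≤ α3 * α1 + β3 * α2 := by positivity
    have hB : 0 ≤ α3 * β1 := by positivity
    have hC : 0 ≤ β3 * β2 := by positivity
    rcases (add_nonneg hB hC).eq_or_lt with h0 | h0
    · -- r = A y
      have hB0 : α3 * β1 = 0 := by linarith
      have hC0 : β3 * β2 = 0 := by linarith
      rw [hB0, hC0, zero_smul, zero_smul, add_zero, add_zero] at e4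
      have h1 : lor r.vec r.vec = (α3 * α1 + β3 * α2) ^ 2 * lor y.vec y.vec := by
        conv_lhs => rw [e4, lor_smul_left, lor_smul_right]
        ring
      rw [lor_self, lor_self, mul_one] at h1
      have h2 : α3 * α1 + β3 * α2 = 1 := by nlinarith
      rw [h2, one_smul] at e4
      have h3 := vec_injective e4
      exact ⟨0, le_rfl, by rw [h3]; simp [Btw]⟩
    · obtain ⟨g, c, hc, hg, hgb, -⟩ := exists_comb (γ t) (γ t') hB hC h0
      -- g lies on the ray
      have hgτ : g = γ (t + dist (γ t) g) := by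
        have hle : dist (γ t) g ≤ t' - t := by
          have h1 : dist (γ t) (γ t') = t' - t := by
            rw [hγ t ht t' (ht.trans htt'), abs_of_nonpos (by linarith)]; ring
          unfold Btw at hgb
          have := dist_nonneg (x := g) (y := γ t')
          linarith
        refine btw_unique hgb (isRay_btw hγ ht (le_add_of_nonneg_right dist_nonneg)
          (by linarith)) ?_
        rw [hγ t ht _ (by positivity), abs_of_nonpos (by linarith [dist_nonneg (x := γ t) (y := g)])]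
        ring
      rw [hg] at e4
      obtain ⟨g', c', hc', hg', hgb', -⟩ := exists_comb y g hA hc.le (by linarith)
      rw [hg'] at e4
      have h1 : lor r.vec r.vec = c' ^ 2 * lor g'.vec g'.vec := by
        conv_lhs => rw [e4, lor_smul_left, lor_smul_right]
        ring
      rw [lor_self, lor_self, mul_one] at h1
      have h2 : c' = 1 := by nlinarith
      rw [h2, one_smul] at e4
      have h3 := vec_injective e4
      refine ⟨t + dist (γ t) g, by positivity, ?_⟩
      rw [h3, ← hgτ]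
      exact hgb'
  rintro p ⟨t, ht, hp⟩ q ⟨t', ht', hq⟩ r hr
  rcases le_total t t' with h | h
  · exact core p q r t t' ht h hp hq hr
  · exact core q p r t' t ht' h hq hp (btw_symm hr)

theorem convex_idealTriangle {γ : ℝ → Hyp m} (hγ : IsRay γ) (y : Hyp m) :
    IsGeodConvex (idealTriangle γ y) := by
  intro p hp q hq r hr
  unfold idealTriangle at *
  rcases (dist_nonneg (x := p) (y := q)).eq_or_lt with h0 | h0
  · have h1 : dist p r = 0 := by
      unfold Btw at hr
      have := dist_nonneg (x := p) (y := r)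
      have := dist_nonneg (x := r) (y := q)
      linarith
    rwa [← eq_of_dist_eq_zero h1]
  · rw [mem_closure_iff_seq_limit] at hp hq ⊢
    obtain ⟨P, hP, hPlim⟩ := hp
    obtain ⟨Q, hQ, hQlim⟩ := hq
    have hs := sinh_pos_iff.mpr h0
    set α := sinh (dist r q) / sinh (dist p q) with hα
    set β := sinh (dist p r) / sinh (dist p q) with hβ
    have hα0 : 0 ≤ α := div_nonneg (sinh_nonneg_iff.mpr dist_nonneg) hs.le
    have hβ0 : 0 ≤ β := div_nonneg (sinh_nonneg_iff.mpr dist_nonneg) hs.le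
    have hv := vec_btw hr
    have hr' : r.vec = α • p.vec + β • q.vec := by
      have : r.vec = (sinh (dist p q))⁻¹ • (sinh (dist p q) • r.vec) := by
        rw [smul_smul, inv_mul_cancel₀ hs.ne', one_smul]
      rw [this, hv, smul_add, smul_smul, smul_smul, hα, hβ]
      congr 2 <;> ring
    have hne : 0 < α + β := by
      rcases (add_nonneg hα0 hβ0).eq_or_lt with h1 | h1
      · exfalso
        have ha : α = 0 := by linarith
        have hb : β = 0 := by linarith
        rw [ha, hb, zero_smul, zero_smul, add_zero] at hr'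
        have h2 := lor_self r
        rw [hr'] at h2
        simp [lor] at h2
      · exact h1
    have hcomb := fun n => exists_comb (P n) (Q n) hα0 hβ0 hne
    choose g c hc hg hgb hcsq using hcomb
    refine ⟨g, fun n => convex_fin hγ y (P n) (hP n) (Q n) (hQ n) (g n) (hgb n), ?_⟩
    have hlorPQ : Tendsto (fun n => lor (P n).vec (Q n).vec) atTop (𝓝 (lor p.vec q.vec)) := by
      simp only [← cosh_dist]
      exact (Real.continuous_cosh.tendsto _).comp (hPlim.dist hQlim)
    have hcsq1 : Tendsto (fun n => c n ^ 2) atTop (𝓝 1) := by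
      simp only [hcsq]
      have h1 : α ^ 2 + β ^ 2 + 2 * α * β * lor p.vec q.vec = 1 := by
        have h2 := lor_self r
        rw [hr'] at h2
        simp only [lor_add_left, lor_smul_left, lor_add_right, lor_smul_right, lor_self,
          lor_comm q.vec p.vec] at h2
        linarith
      rw [← h1]
      exact (hlorPQ.const_mul _).const_add _
    have hc1 : Tendsto c atTop (𝓝 1) := by
      have := hcsq1.sqrt
      simp only [Real.sqrt_one] at this
      refine this.congr (fun n => ?_)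
      exact Real.sqrt_sq (hc n).le
    apply tendsto_of_cosh
    have hgr : ∀ n, lor (g n).vec r.vec = (α * lor (P n).vec r.vec + β * lor (Q n).vec r.vec) / c n := by
      intro n
      have h1 : lor (α • (P n).vec + β • (Q n).vec) r.vec = c n * lor (g n).vec r.vec := by
        rw [hg n, lor_smul_left]
      rw [lor_add_left, lor_smul_left, lor_smul_left] at h1
      rw [h1]
      field_simp [(hc n).ne']
    simp only [hgr]
    have hPr : Tendsto (fun n => lor (P n).vec r.vec) atTop (𝓝 (lor p.vec r.vec)) := by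
      simp only [← cosh_dist]
      exact (Real.continuous_cosh.tendsto _).comp (hPlim.dist tendsto_const_nhds)
    have hQr : Tendsto (fun n => lor (Q n).vec r.vec) atTop (𝓝 (lor q.vec r.vec)) := by
      simp only [← cosh_dist]
      exact (Real.continuous_cosh.tendsto _).comp (hQlim.dist tendsto_const_nhds)
    have h1 : (α * lor p.vec r.vec + β * lor q.vec r.vec) / 1 = 1 := by
      have h2 : lor r.vec r.vec = α * lor p.vec r.vec + β * lor q.vec r.vec := by
        conv_lhs => rw [hr', lor_add_left, lor_smul_left, lor_smul_left, ← hr']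
      rw [lor_self] at h2
      rw [div_one, ← h2]
    rw [← h1]
    exact ((hPr.const_mul α).add (hQr.const_mul β)).div hc1 one_ne_zero

end Hyp

end Pool.Agent.Work.MP_a6f1bd_gt
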