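import Pool.Agent.Work.MP_a6f1bd_gt.Compare

/-!
The rigidity argument: all distances in the union of the segments from `y` to the ray agree with
the distances in the model.
-/

namespace Pool.Agent.Work.MP_a6f1bd_gt

open Real Filter Topology

theorem EE_mem {a r d : ℝ} (ha : 0 < a) (hr : 0 < r) (h1 : a ≤ d + r) (h2 : r ≤ d + a)
    (h3 : d ≤ a + r) : -1 ≤ EE a r d ∧ EE a r d ≤ 1 := by
  unfold EE
  constructor
  · rw [le_div_iff₀ (by positivity)]
    nlinarith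
  · rw [div_le_one₀ (by positivity)]
    nlinarith

theorem CC_inj {a r d d' : ℝ} (ha : 0 < a) (hr : 0 < r) (hd : 0 ≤ d) (hd' : 0 ≤ d')
    (h : CC a r d = CC a r d') : d = d' := by
  have h1 : 0 < sinh a := sinh_pos_iff.mpr ha
  have h2 : 0 < sinh r := sinh_pos_iff.mpr hr
  unfold CC at h
  rw [div_eq_div_iff (by positivity) (by positivity)] at h
  have h3 : cosh d = cosh d' := by
    have h4 : sinh a * sinh r ≠ 0 := by positivity
    have := mul_right_cancel₀ h4 h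
    linarith
  have := congrArg arcosh h3
  rwa [arcosh_cosh hd, arcosh_cosh hd'] at this

theorem CC_le_iff {a r d d' : ℝ} (ha : 0 < a) (hr : 0 < r) (hd : 0 ≤ d) (hd' : 0 ≤ d') :
    CC a r d ≤ CC a r d' ↔ d' ≤ d := by
  have h1 : 0 < sinh a := sinh_pos_iff.mpr ha
  have h2 : 0 < sinh r := sinh_pos_iff.mpr hr
  unfold CC
  rw [div_le_div_iff_of_pos_right (by positivity), sub_le_sub_iff_left, cosh_le_cosh,
    abs_of_nonneg hd, abs_of_nonneg hd']

/-- The angle as a limit along the diagonal. -/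
theorem angle_diag {X : Type} [MetricSpace X] {c c' : ℝ → X} {θ l : ℝ} (hl : 0 < l)
    (hc : ∀ s ∈ Set.Icc 0 l, dist (c 0) (c s) = s) (hc' : ∀ s ∈ Set.Icc 0 l, dist (c' 0) (c' s) = s)
    (h0 : c' 0 = c 0) (h : IsAngle c c' θ) :
    Tendsto (fun u => EE u u (dist (c u) (c' u))) (𝓝[>] 0) (𝓝 (cos θ)) := by
  have h1 : Tendsto (fun u : ℝ => (u, u)) (𝓝[>] 0) (𝓝[>] (0:ℝ) ×ˢ 𝓝[>] (0:ℝ)) :=
    tendsto_id.prodMk tendsto_id
  have h2 := (Real.continuous_cos.tendsto θ).comp (h.comp h1)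
  refine h2.congr' ?_
  have h3 : ∀ᶠ u in 𝓝[>] (0:ℝ), u ∈ Set.Ioo 0 l := Ioo_mem_nhdsGT hl
  filter_upwards [h3] with u hu
  have e1 := hc u ⟨hu.1.le, hu.2.le⟩
  have e2 := hc' u ⟨hu.1.le, hu.2.le⟩
  rw [h0] at e2
  have hmem := EE_mem (a := u) (r := u) (d := dist (c u) (c' u)) hu.1 hu.1
    (by linarith [dist_nonneg (x := c u) (y := c' u)])
    (by linarith [dist_nonneg (x := c u) (y := c' u)]) (by
      have := dist_triangle (c u) (c 0) (c' u)
      rw [dist_comm (c u) (c 0)] at this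
      linarith)
  show cos (arccos ((u ^ 2 + u ^ 2 - dist (c u) (c' u) ^ 2) / (2 * u * u))) = _
  rw [Real.cos_arccos]
  · rfl
  · exact hmem.1
  · exact hmem.2

section

variable {X : Type} [MetricSpace X]

theorem IsSeg.btw {c : ℝ → X} {p q : X} (h : IsSeg c p q) {s t : ℝ} (hs : 0 ≤ s) (hst : s ≤ t)
    (ht : t ≤ dist p q) : Btw p (c s) (c t) := by
  obtain ⟨h0, h1, hc⟩ := h
  unfold Btw
  rw [← h0]
  rw [← h0] at ht hc
  rw [hc 0 ⟨le_rfl, dist_nonneg⟩ s ⟨hs, by linarith⟩, hc s ⟨hs, by linarith⟩ t ⟨by linarith, ht⟩,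
    hc 0 ⟨le_rfl, dist_nonneg⟩ t ⟨by linarith, ht⟩, abs_of_nonpos (by linarith),
    abs_of_nonpos (by linarith), abs_of_nonpos (by linarith)]
  ring

theorem IsSeg.dist_zero {c : ℝ → X} {p q : X} (h : IsSeg c p q) {s : ℝ} (hs : 0 ≤ s)
    (ht : s ≤ dist p q) : dist p (c s) = s := by
  obtain ⟨h0, h1, hc⟩ := h
  have := hc 0 ⟨le_rfl, dist_nonneg⟩ s ⟨hs, ht⟩
  rw [h0] at this
  rw [this, abs_of_nonpos (by linarith)]
  ring

theorem IsRay.dist_zero {c : ℝ → X} (h : IsRay c) {s : ℝ} (hs : 0 ≤ s) :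
    dist (c 0) (c s) = s := by
  rw [h 0 le_rfl s hs, abs_of_nonpos (by linarith)]
  ring

end

section model

variable {m : ℕ}

/-- In hyperbolic space the comparison cosine of a ray and a segment is the cosine of the angle. -/
theorem Hyp.CC_eq_cos {γ : ℝ → Hyp m} (hγ : IsRay γ) {y : Hyp m} {σ : ℝ → Hyp m}
    (hσ : IsSeg σ (γ 0) y) (hy : 0 < dist (γ 0) y) {θ : ℝ} (hθ : IsAngle γ σ θ)
    {s t : ℝ} (hs : 0 < s) (hsl : s ≤ dist (γ 0) y) (ht : 0 < t) :
    CC s t (dist (σ s) (γ t)) = cos θ := by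
  set a := dist (γ 0) y with ha
  have hdiag := angle_diag hy (fun s hs => hγ.dist_zero hs.1)
    (fun s hs => by rw [hσ.1]; exact hσ.dist_zero hs.1 hs.2) hσ.1 hθ
  -- the comparison cosine is constant
  have hconst : ∀ u, 0 < u → u ≤ s → u ≤ t →
      CC u u (dist (σ u) (γ u)) = CC s t (dist (σ s) (γ t)) := by
    intro u hu hus hut
    have e1 : dist (γ 0) (σ u) = u := hσ.dist_zero hu.le (hus.trans hsl)
    have e2 : dist (γ 0) (σ s) = s := hσ.dist_zero hs.le hsl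
    have e3 : dist (γ 0) (γ u) = u := hγ.dist_zero hu.le
    have e4 : dist (γ 0) (γ t) = t := hγ.dist_zero ht.le
    have b1 : Btw (γ 0) (σ u) (σ s) := hσ.btw hu.le hus hsl
    have b2 : Btw (γ 0) (γ u) (γ t) := Hyp.isRay_btw hγ le_rfl hu.le hut
    have c1 := Hyp.CC_eq b1 (q := γ u) (by rw [e1]; exact hu) (by rw [e3]; exact hu)
    have c2 := Hyp.CC_eq b2 (q := σ s) (by rw [e3]; exact hu) (by rw [e2]; exact hs)
    rw [e1, e2, e3] at c1
    rw [e2, e3, e4] at c2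
    rw [c1, CC_comm s u, dist_comm (σ s), c2, CC_comm t s, dist_comm (γ t)]
  set κ := CC s t (dist (σ s) (γ t)) with hκ
  have hlow : Tendsto (fun u : ℝ => 1 - (1 - κ) * ((sinh u / u) * (sinh u / u))) (𝓝[>] 0) (𝓝 κ) := by
    have := ((tendsto_sinh_div.mul tendsto_sinh_div).const_mul (1 - κ)).const_sub 1
    simpa using this
  have hlim : Tendsto (fun u => EE u u (dist (γ u) (σ u))) (𝓝[>] 0) (𝓝 κ) := by
    have hpos : (0:ℝ) < min s t := lt_min hs ht
    have hev : ∀ᶠ u in 𝓝[>] (0:ℝ), u ∈ Set.Ioo 0 (min s t) := Ioo_mem_nhdsGT hpos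
    refine tendsto_of_tendsto_of_tendsto_of_le_of_le' hlow tendsto_const_nhds ?_ ?_
    · filter_upwards [hev] with u hu
      have hus : u ≤ s := hu.2.le.trans (min_le_left _ _)
      have hut : u ≤ t := hu.2.le.trans (min_le_right _ _)
      have e1 : dist (γ 0) (σ u) = u := hσ.dist_zero hu.1.le (hus.trans hsl)
      have e3 : dist (γ 0) (γ u) = u := hγ.dist_zero hu.1.le
      have h1 := one_sub_EE_le' (v := γ 0) (p := γ u) (q := σ u) (by rw [e3]; exact hu.1)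
        (by rw [e1]; exact hu.1)
      rw [e1, e3, dist_comm (γ u), hconst u hu.1 hus hut] at h1
      rw [dist_comm (γ u)]
      linarith
    · filter_upwards [hev] with u hu
      have hus : u ≤ s := hu.2.le.trans (min_le_left _ _)
      have hut : u ≤ t := hu.2.le.trans (min_le_right _ _)
      have e1 : dist (γ 0) (σ u) = u := hσ.dist_zero hu.1.le (hus.trans hsl)
      have e3 : dist (γ 0) (γ u) = u := hγ.dist_zero hu.1.le
      have h1 := EE_le_CC' (v := γ 0) (p := γ u) (q := σ u) (by rw [e3]; exact hu.1)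
        (by rw [e1]; exact hu.1)
      rw [e1, e3, dist_comm (γ u), hconst u hu.1 hus hut] at h1
      rw [dist_comm (γ u)]
      exact h1
  exact tendsto_nhds_unique hlim hdiag

end model

section general

variable {M : Type} [MetricSpace M]

/-- In curvature `≥ -1` the hyperbolic comparison cosine is at least the cosine of the angle. -/
theorem cos_le_CC (hT : IsCurvGeNegOne M) {γ : ℝ → M} (hγ : IsRay γ) {y : M} {σ : ℝ → M}
    (hσ : IsSeg σ (γ 0) y) (hy : 0 < dist (γ 0) y) {θ : ℝ} (hθ : IsAngle γ σ θ)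
    {s t : ℝ} (hs : 0 < s) (hsl : s ≤ dist (γ 0) y) (ht : 0 < t) :
    cos θ ≤ CC s t (dist (σ s) (γ t)) := by
  have hdiag := angle_diag hy (fun s hs => hγ.dist_zero hs.1)
    (fun s hs => by rw [hσ.1]; exact hσ.dist_zero hs.1 hs.2) hσ.1 hθ
  have hpos : (0:ℝ) < min s t := lt_min hs ht
  have hev : ∀ᶠ u in 𝓝[>] (0:ℝ), u ∈ Set.Ioo 0 (min s t) := Ioo_mem_nhdsGT hpos
  refine le_of_tendsto hdiag ?_
  filter_upwards [hev] with u hu
  have hus : u ≤ s := hu.2.le.trans (min_le_left _ _)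
  have hut : u ≤ t := hu.2.le.trans (min_le_right _ _)
  have hu0 := hu.1
  have e1 : dist (γ 0) (σ u) = u := hσ.dist_zero hu0.le (hus.trans hsl)
  have e2 : dist (γ 0) (σ s) = s := hσ.dist_zero hs.le hsl
  have e3 : dist (γ 0) (γ u) = u := hγ.dist_zero hu0.le
  have e4 : dist (γ 0) (γ t) = t := hγ.dist_zero ht.le
  have b1 : Btw (γ 0) (σ u) (σ s) := hσ.btw hu0.le hus hsl
  have b2 : Btw (γ 0) (γ u) (γ t) := Hyp.isRay_btw hγ le_rfl hu0.le hut
  have c1 := CC_mono hT b1 (q := γ u) (by rw [e1]; exact hu0) (by rw [e3]; exact hu0)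
  have c2 := CC_mono hT b2 (q := σ s) (by rw [e3]; exact hu0) (by rw [e2]; exact hs)
  have h1 := EE_le_CC' (v := γ 0) (p := γ u) (q := σ u) (by rw [e3]; exact hu0)
        (by rw [e1]; exact hu0)
  rw [e1, e2, e3] at c1
  rw [e2, e3, e4] at c2
  rw [e1, e3] at h1
  calc EE u u (dist (γ u) (σ u)) ≤ CC u u (dist (γ u) (σ u)) := h1
    _ = CC u u (dist (σ u) (γ u)) := by rw [dist_comm]
    _ ≤ CC s u (dist (σ s) (γ u)) := c1
    _ = CC u s (dist (γ u) (σ s)) := by rw [CC_comm, dist_comm]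
    _ ≤ CC t s (dist (γ t) (σ s)) := c2
    _ = CC s t (dist (σ s) (γ t)) := by rw [CC_comm, dist_comm]

variable {m : ℕ}

/-- Steps B and C: the distances from the side `[x, y]` to the ray agree with the model. -/
theorem stepF0 (hT : IsCurvGeNegOne M) {γ : ℝ → M} (hγ : IsRay γ) {y : M} {σ : ℝ → M}
    (hσ : IsSeg σ (γ 0) y) (hy : 0 < dist (γ 0) y) {θ : ℝ} (hθ : IsAngle γ σ θ)
    {γ₁ : ℝ → Hyp m} (hγ₁ : IsRay γ₁) {y₁ : Hyp m} {σ₁ : ℝ → Hyp m}
    (hσ₁ : IsSeg σ₁ (γ₁ 0) y₁) (hθ₁ : IsAngle γ₁ σ₁ θ)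
    (hd : dist (γ 0) y = dist (γ₁ 0) y₁) {b : ℝ} (hb : IsBusemann γ y b)
    (hb₁ : IsBusemann γ₁ y₁ b) {s t : ℝ} (hs : 0 ≤ s) (hsl : s ≤ dist (γ 0) y) (ht : 0 ≤ t) :
    dist (σ s) (γ t) = dist (σ₁ s) (γ₁ t) := by
  have hy₁ : 0 < dist (γ₁ 0) y₁ := by rw [← hd]; exact hy
  set a := dist (γ 0) y with ha
  rcases hs.eq_or_lt with h0 | hs0
  · rw [← h0, hσ.1, hσ₁.1, hγ.dist_zero ht, hγ₁.dist_zero ht]
  rcases ht.eq_or_lt with h0 | ht0
  · rw [← h0, dist_comm (σ s), dist_comm (σ₁ s), hσ.dist_zero hs hsl,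
      hσ₁.dist_zero hs (by rw [← hd]; exact hsl)]
  have hσa : σ a = y := hσ.2.1
  have hσa₁ : σ₁ a = y₁ := by rw [hd]; exact hσ₁.2.1
  -- model value
  have hm : ∀ s t, 0 < s → s ≤ a → 0 < t → CC s t (dist (σ₁ s) (γ₁ t)) = cos θ :=
    fun s t h1 h2 h3 => Hyp.CC_eq_cos hγ₁ hσ₁ hy₁ hθ₁ h1 (by rw [← hd]; exact h2) h3
  have hlow : ∀ s t, 0 < s → s ≤ a → 0 < t → cos θ ≤ CC s t (dist (σ s) (γ t)) :=
    fun s t h1 h2 h3 => cos_le_CC hT hγ hσ hy hθ h1 h2 h3
  -- the limit at infinity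
  have hlim₁ : cos θ = (cosh a - exp b) / sinh a := by
    have h1 := tendsto_CC_atTop (a := a) hb₁
    refine tendsto_nhds_unique ?_ h1
    refine tendsto_const_nhds.congr' ?_
    filter_upwards [eventually_gt_atTop (0:ℝ)] with τ hτ
    rw [← hσa₁]
    exact (hm a τ hy le_rfl hτ).symm
  have hup : CC a t (dist y (γ t)) ≤ cos θ := by
    have h1 := tendsto_CC_atTop (a := a) hb
    rw [← hlim₁] at h1
    refine ge_of_tendsto h1 ?_
    filter_upwards [eventually_ge_atTop t] with τ hτ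
    have hτ0 : 0 < τ := lt_of_lt_of_le ht0 hτ
    have e3 : dist (γ 0) (γ t) = t := hγ.dist_zero ht
    have e4 : dist (γ 0) (γ τ) = τ := hγ.dist_zero hτ0.le
    have b2 : Btw (γ 0) (γ t) (γ τ) := Hyp.isRay_btw hγ le_rfl ht hτ
    have c2 := CC_mono hT b2 (q := y) (by rw [e3]; exact ht0) hy
    rw [e3, e4, ← ha] at c2
    calc CC a t (dist y (γ t)) = CC t a (dist (γ t) y) := by rw [CC_comm, dist_comm]
      _ ≤ CC τ a (dist (γ τ) y) := c2
      _ = CC a τ (dist y (γ τ)) := by rw [CC_comm, dist_comm]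
  have hst : CC s t (dist (σ s) (γ t)) ≤ cos θ := by
    have e1 : dist (γ 0) (σ s) = s := hσ.dist_zero hs hsl
    have e4 : dist (γ 0) (γ t) = t := hγ.dist_zero ht
    have b1 : Btw (γ 0) (σ s) (σ a) := hσ.btw hs hsl le_rfl
    rw [hσa] at b1
    have c1 := CC_mono hT b1 (q := γ t) (by rw [e1]; exact hs0) (by rw [e4]; exact ht0)
    rw [e1, e4, ← ha] at c1
    exact c1.trans hup
  apply CC_inj hs0 ht0 dist_nonneg dist_nonneg
  rw [hm s t hs0 hsl ht0]
  exact le_antisymm hst (hlow s t hs0 hsl ht0)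

/-- Step D: the distances from the points of a segment `[y, γ(t)]` to the ray agree. -/
theorem stepD (hT : IsCurvGeNegOne M) {γ : ℝ → M} (hγ : IsRay γ) {y : M}
    {γ₁ : ℝ → Hyp m} (hγ₁ : IsRay γ₁) {y₁ : Hyp m}
    (F : ∀ t, 0 ≤ t → dist y (γ t) = dist y₁ (γ₁ t)) {t : ℝ} (ht : 0 < t) {p : M} {p₁ : Hyp m}
    (hp : Btw y p (γ t)) (hp₁ : Btw y₁ p₁ (γ₁ t)) (h : dist y p = dist y₁ p₁) {τ : ℝ}
    (hτ : 0 ≤ τ) : dist p (γ τ) = dist p₁ (γ₁ τ) := by
  have hpt : dist p (γ t) = dist p₁ (γ₁ t) := by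
    unfold Btw at hp hp₁
    have := F t ht.le
    linarith
  -- lower bound
  have hlow : ∀ τ, 0 ≤ τ → cosh (dist p₁ (γ₁ τ)) ≤ cosh (dist p (γ τ)) := by
    intro τ hτ
    rcases (dist_nonneg (x := y) (y := γ t)).eq_or_lt with h0 | h0
    · have h1 : dist y p = 0 := by
        have := hp.le
        have := dist_nonneg (x := y) (y := p)
        linarith
      have h2 : dist y₁ p₁ = 0 := by rw [← h, h1]
      rw [← eq_of_dist_eq_zero h1, ← eq_of_dist_eq_zero h2, F τ hτ]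
    · have h1 := hT y p (γ t) (γ τ) hp
      have h2 := Hyp.eq_btw hp₁ (γ₁ τ)
      rw [← F t ht.le, dist_comm (γ₁ τ) y₁, ← F τ hτ, ← hpt, ← h, hγ₁ τ hτ t ht.le] at h2
      rw [dist_comm (γ τ) y, hγ τ hτ t ht.le, h2] at h1
      rw [dist_comm p, dist_comm p₁]
      exact le_of_mul_le_mul_left h1 (sinh_pos_iff.mpr h0)
  have squeeze : ∀ τ₁ τ₂, 0 ≤ τ₁ → τ₁ < t → t < τ₂ →
      cosh (dist p (γ τ₁)) = cosh (dist p₁ (γ₁ τ₁)) ∧
      cosh (dist p (γ τ₂)) = cosh (dist p₁ (γ₁ τ₂)) := by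
    intro τ₁ τ₂ h0 h1 h2
    have b := Hyp.isRay_btw hγ h0 h1.le h2.le
    have b₁ := Hyp.isRay_btw hγ₁ h0 h1.le h2.le
    have e := hT _ _ _ p b
    have e₁ := Hyp.eq_btw b₁ p₁
    have l1 := hlow τ₁ h0
    have l2 := hlow τ₂ (by linarith)
    rw [← hpt] at e₁
    have d1 : dist (γ t) (γ τ₂) = τ₂ - t := by
      rw [hγ t ht.le τ₂ (by linarith), abs_of_nonpos (by linarith)]; ring
    have d2 : dist (γ τ₁) (γ t) = t - τ₁ := by
      rw [hγ τ₁ h0 t ht.le, abs_of_nonpos (by linarith)]; ring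
    have d3 : dist (γ τ₁) (γ τ₂) = τ₂ - τ₁ := by
      rw [hγ τ₁ h0 τ₂ (by linarith), abs_of_nonpos (by linarith)]; ring
    have d1' : dist (γ₁ t) (γ₁ τ₂) = τ₂ - t := by
      rw [hγ₁ t ht.le τ₂ (by linarith), abs_of_nonpos (by linarith)]; ring
    have d2' : dist (γ₁ τ₁) (γ₁ t) = t - τ₁ := by
      rw [hγ₁ τ₁ h0 t ht.le, abs_of_nonpos (by linarith)]; ring
    have d3' : dist (γ₁ τ₁) (γ₁ τ₂) = τ₂ - τ₁ := by
      rw [hγ₁ τ₁ h0 τ₂ (by linarith), abs_of_nonpos (by linarith)]; ring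
    rw [d1, d2, d3] at e
    rw [d1', d2', d3'] at e₁
    rw [← e₁] at e
    have s1 : 0 < sinh (τ₂ - t) := sinh_pos_iff.mpr (by linarith)
    have s2 : 0 < sinh (t - τ₁) := sinh_pos_iff.mpr (by linarith)
    have m1 := mul_le_mul_of_nonneg_left l1 s1.le
    have m2 := mul_le_mul_of_nonneg_left l2 s2.le
    constructor
    · have : sinh (τ₂ - t) * cosh (dist p (γ τ₁)) = sinh (τ₂ - t) * cosh (dist p₁ (γ₁ τ₁)) := by
        linarith
      exact mul_left_cancel₀ s1.ne' this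
    · have : sinh (t - τ₁) * cosh (dist p (γ τ₂)) = sinh (t - τ₁) * cosh (dist p₁ (γ₁ τ₂)) := by
        linarith
      exact mul_left_cancel₀ s2.ne' this
  have hfin : cosh (dist p (γ τ)) = cosh (dist p₁ (γ₁ τ)) := by
    rcases lt_trichotomy τ t with h1 | h1 | h1
    · exact (squeeze τ (t + 1) hτ h1 (by linarith)).1
    · rw [h1, hpt]
    · exact (squeeze 0 τ le_rfl ht h1).2
  have := congrArg arcosh hfin
  rwa [arcosh_cosh dist_nonneg, arcosh_cosh dist_nonneg] at this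

/-- First variation. -/
theorem tendsto_first_var (κ : ℝ) {L : ℝ} (hL : 0 < L) :
    Tendsto (fun u : ℝ => (u ^ 2 + L ^ 2 - (L + cosh L / sinh L * (cosh u - 1) - κ * sinh u) ^ 2) /
      (2 * u * L)) (𝓝[>] 0) (𝓝 κ) := by
  have h1 : HasDerivAt (fun u : ℝ => L + cosh L / sinh L * (cosh u - 1) - κ * sinh u)
      (cosh L / sinh L * sinh 0 - κ * cosh 0) 0 :=
    ((((Real.hasDerivAt_cosh 0).sub_const 1).const_mul (cosh L / sinh L)).const_add L).sub
      ((Real.hasDerivAt_sinh 0).const_mul κ)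
  have h2 : HasDerivAt (fun u : ℝ => u ^ 2 + L ^ 2 -
      (L + cosh L / sinh L * (cosh u - 1) - κ * sinh u) ^ 2) (2 * L * κ) 0 := by
    have h3 := ((hasDerivAt_pow 2 (0:ℝ)).add_const (L ^ 2)).sub (h1.pow 2)
    have h3' : HasDerivAt (fun u : ℝ => u ^ 2 + L ^ 2 -
      (L + cosh L / sinh L * (cosh u - 1) - κ * sinh u) ^ 2) _ 0 := h3
    have e : ((2:ℕ):ℝ) * 0 ^ (2 - 1) - ((2:ℕ):ℝ) * (L + cosh L / sinh L * (cosh 0 - 1)
        - κ * sinh 0) ^ (2 - 1) * (cosh L / sinh L * sinh 0 - κ * cosh 0) = 2 * L * κ := by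
      rw [cosh_zero, sinh_zero]
      norm_num
    rw [← e]
    exact h3'
  rw [hasDerivAt_iff_tendsto_slope] at h2
  have h4 : Tendsto (slope (fun u : ℝ => u ^ 2 + L ^ 2 -
      (L + cosh L / sinh L * (cosh u - 1) - κ * sinh u) ^ 2) 0) (𝓝[>] 0) (𝓝 (2 * L * κ)) :=
    h2.mono_left (nhdsWithin_mono 0 (fun x hx => (Set.mem_Ioi.mp hx).ne'))
  have h5 := h4.div_const (2 * L)
  rw [show 2 * L * κ / (2 * L) = κ by field_simp] at h5
  refine h5.congr (fun u => ?_)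
  rw [slope_def_field]
  simp only [cosh_zero, sinh_zero, sub_self, mul_zero, add_zero, sub_zero]
  rw [div_div]
  congr 1
  · ring
  · ring

theorem le_of_cosh_eq {κ L u d : ℝ} (hL : 0 < L)
    (h : cosh d = cosh u * cosh L - κ * (sinh u * sinh L)) :
    d ≤ L + cosh L / sinh L * (cosh u - 1) - κ * sinh u := by
  have hs : 0 < sinh L := sinh_pos_iff.mpr hL
  -- tangent line: cosh d ≥ cosh L + (d - L) sinh L
  have h1 : cosh L + (d - L) * sinh L ≤ cosh d := by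
    have e1 : cosh d = cosh L * cosh (d - L) + sinh L * sinh (d - L) := by
      rw [← cosh_add]; congr 1; ring
    have e2 : 0 ≤ cosh (d - L) - 1 := by linarith [Real.one_le_cosh (d - L)]
    have e3 : cosh (d - L) + sinh (d - L) = exp (d - L) := Real.cosh_add_sinh _
    have e4 : (d - L) + 1 ≤ exp (d - L) := Real.add_one_le_exp _
    have e5 : sinh L ≤ cosh L := (Real.sinh_lt_cosh L).le
    rw [e1]
    have e6 : sinh L * (cosh (d - L) - 1) ≤ cosh L * (cosh (d - L) - 1) :=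
      mul_le_mul_of_nonneg_right e5 e2
    have e7 : sinh L * ((d - L) + 1) ≤ sinh L * (cosh (d - L) + sinh (d - L)) := by
      rw [e3]; exact mul_le_mul_of_nonneg_left e4 hs.le
    nlinarith
  rw [h] at h1
  have h2 : (d - L) * sinh L ≤ cosh L * (cosh u - 1) - κ * (sinh u * sinh L) := by nlinarith
  have h3 : d - L ≤ (cosh L * (cosh u - 1) - κ * (sinh u * sinh L)) / sinh L := by
    rw [le_div_iff₀ hs]; exact h2
  have h4 : (cosh L * (cosh u - 1) - κ * (sinh u * sinh L)) / sinh L =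
      cosh L / sinh L * (cosh u - 1) - κ * sinh u := by
    field_simp
  linarith

/-- Step E: all distances between points of the segments agree. -/
theorem stepE (hG : IsGeodesicSpace M) (hT : IsCurvGeNegOne M) (hN : IsNonposCurved M) {γ : ℝ → M}
    {y : M} {γ₁ : ℝ → Hyp m} {y₁ : Hyp m}
    (F : ∀ t, 0 ≤ t → dist y (γ t) = dist y₁ (γ₁ t))
    (D : ∀ t, 0 ≤ t → ∀ p p₁, Btw y p (γ t) → Btw y₁ p₁ (γ₁ t) → dist y p = dist y₁ p₁ →
      ∀ τ, 0 ≤ τ → dist p (γ τ) = dist p₁ (γ₁ τ))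
    {t t' : ℝ} (ht : 0 ≤ t) (ht' : 0 ≤ t') {p q : M} {p₁ q₁ : Hyp m}
    (hp : Btw y p (γ t)) (hp₁ : Btw y₁ p₁ (γ₁ t)) (h : dist y p = dist y₁ p₁)
    (hq : Btw y q (γ t')) (hq₁ : Btw y₁ q₁ (γ₁ t')) (h' : dist y q = dist y₁ q₁) :
    dist p q = dist p₁ q₁ := by
  rcases (dist_nonneg (x := y) (y := p)).eq_or_lt with h0 | hp0
  · have h2 : dist y₁ p₁ = 0 := by rw [← h, ← h0]
    rw [← eq_of_dist_eq_zero h0.symm, ← eq_of_dist_eq_zero h2, h']
  rcases (dist_nonneg (x := y) (y := q)).eq_or_lt with h0 | hq0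
  · have h2 : dist y₁ q₁ = 0 := by rw [← h', ← h0]
    rw [← eq_of_dist_eq_zero h0.symm, ← eq_of_dist_eq_zero h2, dist_comm, dist_comm p₁, h]
  have hL0 : 0 < dist y (γ t') := lt_of_lt_of_le hq0 hq.le
  have hp₁0 : 0 < dist y₁ p₁ := by rw [← h]; exact hp0
  have hq₁0 : 0 < dist y₁ q₁ := by rw [← h']; exact hq0
  have hL₁0 : 0 < dist y₁ (γ₁ t') := by rw [← F t' ht']; exact hL0
  have hqt : dist q (γ t') = dist q₁ (γ₁ t') := by
    unfold Btw at hq hq₁
    have := F t' ht'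
    linarith
  have hpt' := D t ht p p₁ hp hp₁ h t' ht'
  -- lower bound
  have hlow : cosh (dist p₁ q₁) ≤ cosh (dist p q) := by
    have h1 := hT y q (γ t') p hq
    have h2 := Hyp.eq_btw hq₁ p₁
    rw [dist_comm p₁ y₁, ← h, ← h', ← hpt', ← hqt, ← F t' ht'] at h2
    rw [dist_comm p y, h2] at h1
    exact le_of_mul_le_mul_left h1 (sinh_pos_iff.mpr hL0)
  -- model constant
  set L := dist y (γ t') with hL
  set κ := CC (dist y₁ p₁) (dist y₁ q₁) (dist p₁ q₁) with hκ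
  have hκ' : κ = CC (dist y₁ p₁) (dist y₁ (γ₁ t')) (dist p₁ (γ₁ t')) := by
    have := Hyp.CC_eq hq₁ (q := p₁) hq₁0 hp₁0
    rw [hκ, CC_comm, dist_comm p₁ q₁, this, CC_comm, dist_comm p₁]
  -- the main inequality
  have hmain : ∀ u, 0 < u → u ≤ dist y p →
      (u ^ 2 + L ^ 2 - (L + cosh L / sinh L * (cosh u - 1) - κ * sinh u) ^ 2) / (2 * u * L) ≤
      CC (dist y p) (dist y q) (dist p q) := by
    intro u hu hup
    obtain ⟨P, hP, hPu⟩ := exists_btw' hG y p hu.le hup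
    obtain ⟨P₁, hP₁, hPu₁⟩ := Hyp.exists_btw y₁ p₁ hu.le (by rw [← h]; exact hup)
    have hP0 : 0 < dist y P := by rw [hPu]; exact hu
    have hP₁0 : 0 < dist y₁ P₁ := by rw [hPu₁]; exact hu
    -- P lies on [y, γ t]
    have trans : ∀ {Z : Type} [MetricSpace Z] {a b c d : Z}, Btw a b c → Btw a c d → Btw a b d := by
      intro Z _ a b c d h1 h2
      unfold Btw at *
      have t1 := dist_triangle b c d
      have t2 := dist_triangle a b d
      linarith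
    have hPt : Btw y P (γ t) := trans hP hp
    have hPt₁ : Btw y₁ P₁ (γ₁ t) := trans hP₁ hp₁
    have e1 := D t ht P P₁ hPt hPt₁ (by rw [hPu, hPu₁]) t' ht'
    have c1 := CC_mono hT hP (q := q) hP0 hq0
    have c2 := EE_le_CC' (v := y) (p := P) (q := q) hP0 hq0
    have c3 := EE_anti hN hq (q := P) hq0 hP0
    have c4 : κ = CC u L (dist P (γ t')) := by
      rw [hκ', ← Hyp.CC_eq hP₁ (q := γ₁ t') hP₁0 hL₁0, hPu₁, e1, hL, F t' ht']
    have c5 : dist P (γ t') ≤ L + cosh L / sinh L * (cosh u - 1) - κ * sinh u := by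
      apply le_of_cosh_eq hL0
      have s1 : 0 < sinh u := sinh_pos_iff.mpr hu
      have s2 : 0 < sinh L := sinh_pos_iff.mpr hL0
      rw [c4]
      unfold CC
      rw [div_mul_cancel₀ _ (by positivity)]
      ring
    rw [hPu] at c1 c2 c3
    calc (u ^ 2 + L ^ 2 - (L + cosh L / sinh L * (cosh u - 1) - κ * sinh u) ^ 2) / (2 * u * L)
        ≤ EE u L (dist P (γ t')) := by
          unfold EE
          rw [div_le_div_iff_of_pos_right (by positivity)]
          have := pow_le_pow_left₀ (dist_nonneg (x := P) (y := γ t')) c5 2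
          linarith
      _ = EE L u (dist (γ t') P) := by rw [EE_comm, dist_comm P]
      _ ≤ EE (dist y q) u (dist q P) := c3
      _ = EE u (dist y q) (dist P q) := by rw [EE_comm, dist_comm q P]
      _ ≤ CC u (dist y q) (dist P q) := c2
      _ ≤ CC (dist y p) (dist y q) (dist p q) := c1
  have hκle : κ ≤ CC (dist y p) (dist y q) (dist p q) := by
    refine le_of_tendsto (tendsto_first_var κ hL0) ?_
    have hev : ∀ᶠ u in 𝓝[>] (0:ℝ), u ∈ Set.Ioo 0 (dist y p) := Ioo_mem_nhdsGT hp0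
    filter_upwards [hev] with u hu
    exact hmain u hu.1 hu.2.le
  rw [hκ, ← h, ← h', CC_le_iff hp0 hq0 dist_nonneg dist_nonneg] at hκle
  rw [cosh_le_cosh, abs_of_nonneg dist_nonneg, abs_of_nonneg dist_nonneg] at hlow
  exact le_antisymm hκle hlow

end general

end Pool.Agent.Work.MP_a6f1bd_gt
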